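import Pool.Agent.Y771.NF.Dn
import Pool.Agent.Y693.GL.Prd

/-!
# Density theorem for the twists of a newform of weight two and for products of them
-/

set_option autoImplicit false

namespace Pool.Agent.Q9.RH

open UpperHalfPlane hiding I
open MatrixGroups CongruenceSubgroup Filter Topology Complex
open Pool.Agent.Y671.GL
open Pool.Agent.Y771.NF (half_sum ord_L ordNat_symm)
open Pool.Agent.Y24.GL (LFn Mol ZF rgt_of)
open Pool.Agent.Y693.GL
open Pool.Agent.W169.HF (IsForm coef)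
open Pool.Agent.W355.UN (facE isNewf_of prodE Pk coprime_cond)
open scoped ComplexConjugate

/-- zeros at distance at least `d` from the imaginary axis -/
def SX (X : ℂ → ℂ) (d T : ℝ) : Set ℂ := {z | X z = 0 ∧ d ≤ |z.re| ∧ 0 < z.im ∧ z.im ≤ T}

theorem SX_fin {X : ℂ → ℂ} (hX : Differentiable ℂ X) (hst : ∀ s : ℂ, X s = 0 → |s.re| ≤ 1 / 2) (d T : ℝ) :
    (SX X d T).Finite := by
  have hne : X 1 ≠ 0 := by
    intro h0
    have := hst 1 h0
    norm_num at this
  have hK : IsCompact (Set.Icc (-(1 / 2 : ℝ)) (1 / 2) ×ℂ Set.Icc 0 T) := isCompact_Icc.reProdIm isCompact_Icc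
  refine (Pool.Agent.W605.SD.fin_zeros hX hne hK).subset ?_
  rintro z ⟨h1, h2, h3, h4⟩
  have := abs_le.1 (hst z h1)
  exact ⟨⟨⟨this.1, this.2⟩, ⟨h3.le, h4⟩⟩, h1⟩

/-- **the density theorem** for the completed L-function -/
theorem off_ld {k : ℕ} (hk : 1 ≤ k) {c : ℝ} {u : ℂ} {X Z : ℂ → ℂ} (hD : LData k c u X Z) (hZ : LFn Z)
    (hst : ∀ s : ℂ, X s = 0 → |s.re| ≤ 1 / 2)
    (hmol : ∀ κ : ℝ, 1 / 2 < κ → κ < 1 → ∃ P : ℝ → ℂ → ℂ, Mol Z P κ) {a : ℝ} (ha : a < 1) :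
    ∃ C : ℝ, 0 < C ∧ ∀ d T : ℝ, 0 ≤ d → 2 ≤ T →
      ∀ S : Finset ℂ, (∀ z ∈ S, z ∈ SX X d T) →
        ∑ z ∈ S, (analyticOrderNatAt X z : ℝ) ≤ C * T ^ (1 - a * d) * Real.log T := by
  obtain ⟨C, hC, h⟩ := Pool.Agent.Y24.GL.density hZ hmol ha
  have hX := hD.diff
  refine ⟨2 * C, by positivity, fun d T hd hT S hS => ?_⟩
  have hlog : 0 ≤ Real.log T := Real.log_nonneg (by linarith)
  have hT0 : 0 ≤ T := by linarith
  have hpow : 0 ≤ T ^ (1 - a * d) := Real.rpow_nonneg hT0 _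
  rcases le_or_gt d (1 / 2) with hd2 | hd2
  · have hB := h (1 / 2 + d) T (by linarith) (by linarith) hT
    rw [add_sub_cancel_left] at hB
    rw [← Finset.sum_filter_add_sum_filter_not S (fun w => d ≤ w.re)]
    have hZ0 : ∀ w : ℂ, 0 < w.im → X w = 0 → Z (1 / 2 + w) = 0 := by
      intro w hw h0
      rw [hD.eq w (Or.inl hw)] at h0
      refine (mul_eq_zero.1 h0).resolve_left ?_
      refine mul_ne_zero hD.u_ne (mul_ne_zero ?_ ?_)
      · rw [Ne, Complex.cpow_eq_zero_iff]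
        intro h
        have := hD.c_pos.ne'
        exact this (by exact_mod_cast h.1)
      · apply Complex.Gamma_ne_zero
        intro m hm
        have := congrArg Complex.im hm
        simp at this
        linarith
    have hp : ∑ w ∈ S.filter (fun w => d ≤ w.re), (analyticOrderNatAt X w : ℝ) ≤
        C * T ^ (1 - a * d) * Real.log T := by
      refine half_sum (φ := fun w => 1 / 2 + w) (fun a _ b _ hab => add_left_cancel hab) ?_ ?_ hB
      · intro w hw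
        obtain ⟨h1, h2⟩ := Finset.mem_filter.1 hw
        obtain ⟨h3, h4, h5, h6⟩ := hS w h1
        refine ⟨hZ0 w h5 h3, ?_, ?_, ?_⟩
        · simp
          linarith
        · simp
          exact h5
        · simp
          exact h6
      · intro w hw
        obtain ⟨h1, h2⟩ := Finset.mem_filter.1 hw
        obtain ⟨h3, h4, h5, h6⟩ := hS w h1
        exact ord_L hk hD hZ.diff h5
    have hm : ∑ w ∈ S.filter (fun w => ¬ d ≤ w.re), (analyticOrderNatAt X w : ℝ) ≤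
        C * T ^ (1 - a * d) * Real.log T := by
      refine half_sum (φ := fun w => 1 / 2 + -(conj w)) (fun a _ b _ hab => ?_) ?_ ?_ hB
      · have h1 : -(conj a) = -(conj b) := add_left_cancel hab
        exact (starRingEnd ℂ).injective (neg_injective h1)
      · intro w hw
        obtain ⟨h1, h2⟩ := Finset.mem_filter.1 hw
        obtain ⟨h3, h4, h5, h6⟩ := hS w h1
        have h7 : X (-(conj w)) = 0 := by
          rw [hD.symm, h3, map_zero]
        have him : (-(conj w)).im = w.im := by simp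
        have hre : (-(conj w)).re = -w.re := by simp
        refine ⟨hZ0 _ (by rw [him]; exact h5) h7, ?_, ?_, ?_⟩
        · have h8 : d ≤ -w.re := by
            rcases le_abs.1 h4 with h9 | h9
            · exact absurd h9 h2
            · exact h9
          simp
          linarith
        · simp
          exact h5
        · simp
          exact h6
      · intro w hw
        obtain ⟨h1, h2⟩ := Finset.mem_filter.1 hw
        obtain ⟨h3, h4, h5, h6⟩ := hS w h1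
        have him : (-(conj w)).im = w.im := by simp
        rw [← ordNat_symm hX hD.symm w]
        exact ord_L hk hD hZ.diff (by rw [him]; exact h5)
    calc _ ≤ C * T ^ (1 - a * d) * Real.log T + C * T ^ (1 - a * d) * Real.log T := add_le_add hp hm
      _ = _ := by ring
  · have hemp : S = ∅ := by
      rw [Finset.eq_empty_iff_forall_notMem]
      intro z hz
      obtain ⟨h1, h2, -, -⟩ := hS z hz
      have h3 := hst _ h1
      linarith
    rw [hemp, Finset.sum_empty]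
    positivity

/-! ### products -/

theorem order_prod {ι : Type*} (s : Finset ι) (X : ι → ℂ → ℂ) (hX : ∀ i ∈ s, Differentiable ℂ (X i))
    (hne : ∀ i ∈ s, X i 1 ≠ 0) (z : ℂ) :
    analyticOrderNatAt (fun w => ∏ i ∈ s, X i w) z = ∑ i ∈ s, analyticOrderNatAt (X i) z ∧
      analyticOrderAt (fun w => ∏ i ∈ s, X i w) z ≠ ⊤ := by
  classical
  have htop : ∀ g : ℂ → ℂ, Differentiable ℂ g → g 1 ≠ 0 → analyticOrderAt g z ≠ ⊤ := by
    intro g hg hg1 h0
    rw [analyticOrderAt_eq_top] at h0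
    have h1 : AnalyticOnNhd ℂ g Set.univ := fun z _ => hg.analyticAt z
    exact hg1 (h1.eqOn_zero_of_preconnected_of_eventuallyEq_zero isPreconnected_univ (Set.mem_univ z) h0
      (Set.mem_univ 1))
  induction s using Finset.induction_on with
  | empty =>
    simp only [Finset.prod_empty, Finset.sum_empty]
    have h1 : analyticOrderAt (fun _ : ℂ => (1 : ℂ)) z = 0 := analyticAt_const.analyticOrderAt_eq_zero.2 one_ne_zero
    constructor
    · unfold analyticOrderNatAt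
      rw [h1]
      rfl
    · rw [h1]
      exact ENat.zero_ne_top
  | insert i s hi ih =>
    obtain ⟨ih1, ih2⟩ := ih (fun j hj => hX j (Finset.mem_insert_of_mem hj)) fun j hj => hne j (Finset.mem_insert_of_mem hj)
    have hdi := hX i (Finset.mem_insert_self i s)
    have hni := hne i (Finset.mem_insert_self i s)
    have hds : Differentiable ℂ (fun w => ∏ i ∈ s, X i w) := by
      have := Differentiable.fun_finsetProd (𝕜 := ℂ) (u := s) (f := X) fun j hj => hX j (Finset.mem_insert_of_mem hj)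
      exact this
    have he : (fun w => ∏ i ∈ insert i s, X i w) = X i * fun w => ∏ i ∈ s, X i w := by
      funext w
      rw [Finset.prod_insert hi]
      rfl
    have h1 := analyticOrderAt_mul (hdi.analyticAt z) (hds.analyticAt z)
    rw [he]
    constructor
    · rw [Finset.sum_insert hi, ← ih1]
      unfold analyticOrderNatAt
      rw [h1]
      exact ENat.toNat_add (htop _ hdi hni) ih2
    · rw [h1]
      exact WithTop.add_ne_top.2 ⟨htop _ hdi hni, ih2⟩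

/-- density for products -/
theorem off_prod {ι : Type*} [Fintype ι] (X : ι → ℂ → ℂ) (hX : ∀ i, Differentiable ℂ (X i))
    (hst : ∀ i, ∀ s : ℂ, X i s = 0 → |s.re| ≤ 1 / 2) {a : ℝ}
    (h : ∀ i, ∃ C : ℝ, 0 < C ∧ ∀ d T : ℝ, 0 ≤ d → 2 ≤ T → ∀ S : Finset ℂ, (∀ z ∈ S, z ∈ SX (X i) d T) →
        ∑ z ∈ S, (analyticOrderNatAt (X i) z : ℝ) ≤ C * T ^ (1 - a * d) * Real.log T) :
    ∃ C : ℝ, 0 < C ∧ ∀ d T : ℝ, 0 ≤ d → 2 ≤ T → ∀ S : Finset ℂ, (∀ z ∈ S, z ∈ SX (fun w => ∏ i, X i w) d T) →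
        ∑ z ∈ S, (analyticOrderNatAt (fun w => ∏ i, X i w) z : ℝ) ≤ C * T ^ (1 - a * d) * Real.log T := by
  classical
  choose C hC h1 using h
  refine ⟨1 + ∑ i, C i, by have := Finset.sum_nonneg fun i (_ : i ∈ Finset.univ) => (hC i).le; linarith,
    fun d T hd hT S hS => ?_⟩
  have hne : ∀ i, X i 1 ≠ 0 := by
    intro i h0
    have := hst i 1 h0
    norm_num at this
  have hlog : 0 ≤ Real.log T := Real.log_nonneg (by linarith)
  have hT0 : 0 ≤ T := by linarith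
  have hpow : 0 ≤ T ^ (1 - a * d) := Real.rpow_nonneg hT0 _
  have e1 : ∑ z ∈ S, (analyticOrderNatAt (fun w => ∏ i, X i w) z : ℝ) =
      ∑ i, ∑ z ∈ S, (analyticOrderNatAt (X i) z : ℝ) := by
    rw [Finset.sum_comm]
    refine Finset.sum_congr rfl fun z _ => ?_
    rw [(order_prod Finset.univ X (fun i _ => hX i) (fun i _ => hne i) z).1]
    push_cast
    rfl
  rw [e1]
  have h2 : ∀ i, ∑ z ∈ S, (analyticOrderNatAt (X i) z : ℝ) ≤ C i * T ^ (1 - a * d) * Real.log T := by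
    intro i
    have h3 : ∑ z ∈ S, (analyticOrderNatAt (X i) z : ℝ) =
        ∑ z ∈ S.filter (fun z => X i z = 0), (analyticOrderNatAt (X i) z : ℝ) := by
      symm
      refine Finset.sum_subset (Finset.filter_subset _ _) fun z hz hz' => ?_
      have h4 : X i z ≠ 0 := fun h5 => hz' (Finset.mem_filter.2 ⟨hz, h5⟩)
      have h5 : analyticOrderAt (X i) z = 0 := ((hX i).analyticAt z).analyticOrderAt_eq_zero.2 h4
      unfold analyticOrderNatAt
      rw [h5]
      simp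
    rw [h3]
    refine h1 i d T hd hT _ fun z hz => ?_
    obtain ⟨h4, h5⟩ := Finset.mem_filter.1 hz
    obtain ⟨-, h6, h7, h8⟩ := hS z h4
    exact ⟨h5, h6, h7, h8⟩
  refine (Finset.sum_le_sum fun i _ => h2 i).trans ?_
  rw [← Finset.sum_mul, ← Finset.sum_mul]
  have h9 : 0 ≤ T ^ (1 - a * d) * Real.log T := by positivity
  nlinarith

/-! ### twists -/

variable {N : ℕ} [NeZero N] {f : CuspForm (Gamma0 N : Subgroup (GL (Fin 2) ℝ)) 2} {w : ℝ}
variable {q : ℕ} [NeZero q] {χ : DirichletCharacter ℂ q}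

omit [NeZero N] [NeZero q] in
lemma l2_conj (n : ℕ) : conj (l2 f χ⁻¹ n) = l2 f χ n := by
  unfold l2
  rw [map_mul, Complex.conj_ofReal]
  congr 1
  have h := MulChar.star_apply' (χ⁻¹) (n : ZMod q)
  rw [inv_inv] at h
  exact h

omit [NeZero N] [NeZero q] in
/-- the conjugate L-function -/
lemma L_conj {F F' : ℂ → ℂ} (hF : IsL (l2 f χ) F) (hF' : IsL (l2 f χ⁻¹) F') (s : ℂ) :
    F' (conj s) = conj (F s) := by
  have hd1 : Differentiable ℂ (conj ∘ F' ∘ conj) := by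
    intro z
    have := (hF'.diff (conj z)).conj_conj
    rwa [Complex.conj_conj] at this
  have hev : (conj ∘ F' ∘ conj) =ᶠ[𝓝 (2 : ℂ)] F := by
    have hopen : IsOpen {s : ℂ | 1 < s.re} := isOpen_lt continuous_const Complex.continuous_re
    filter_upwards [hopen.mem_nhds (show (2 : ℂ) ∈ {s : ℂ | 1 < s.re} by simp)] with s hs
    simp only [Function.comp_apply]
    rw [hF.ser s hs, hF'.ser (conj s) (by simpa using hs), Complex.conj_tsum]
    refine tsum_congr fun n => ?_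
    rw [map_mul, l2_conj]
    congr 1
    have h1 : (n : ℂ).arg ≠ Real.pi := by
      rw [Complex.natCast_arg]
      exact Real.pi_ne_zero.symm
    have h2 := Complex.cpow_conj (n : ℂ) (-s) h1
    rw [map_neg, Complex.conj_natCast] at h2
    rw [h2, Complex.conj_conj]
  have h2 := AnalyticOnNhd.eq_of_eventuallyEq (fun z _ => hd1.analyticAt z) (fun z _ => hF.diff.analyticAt z) hev
  have h3 := congrFun h2 s
  simp only [Function.comp_apply] at h3
  rw [← h3, Complex.conj_conj]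

theorem gro_tw (hf : IsForm N f w) (hχ : χ.IsPrimitive) (hco : Nat.Coprime q N) {F : ℂ → ℂ}
    (hFE : W388.FE2 2 N q F) (hF : IsL (l2 f χ) F) :
    ∃ A : ℝ, ∀ s : ℂ, 1 / 16 ≤ s.re → 1 ≤ s.im → ‖F s‖ ≤ A * (q * s.im) ^ A := by
  obtain ⟨c1, K1, -, hK1, h⟩ := Pool.Agent.Y671.GL.rgt_of (frm2 hf hχ hco) hF (ε := 1 / 2) (by norm_num)
  have hN : (1 : ℝ) ≤ N := by exact_mod_cast Nat.one_le_iff_ne_zero.2 (NeZero.ne N)
  have hq : (1 : ℝ) ≤ q := by exact_mod_cast Nat.one_le_iff_ne_zero.2 (NeZero.ne q)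
  refine ⟨2 + 2 * (max K1 1 * N) * (((((2 : ℤ) : ℝ) - 1) / 2) + 6) ^ 2, ?_⟩
  intro s h1 h2
  exact Pool.Agent.W820.TW.F_growth (by norm_num) hN hq (le_max_right K1 1) hFE (fun s hs =>
    ((h s (by linarith)).2.1).trans (le_max_left _ _)) le_rfl s h1 h2

theorem lfn_tw (hf : IsForm N f w) (hχ : χ.IsPrimitive) (hco : Nat.Coprime q N) {F : ℂ → ℂ}
    (hFE : W388.FE2 2 N q F) (hF : IsL (l2 f χ) F) : LFn F where
  diff := hF.diff
  low := by
    obtain ⟨c, K, hc, -, h⟩ := Pool.Agent.Y671.GL.rgt_of (frm2 hf hχ hco) hF (ε := 1) one_pos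
    exact ⟨c, hc, fun z hz => (h z (by linarith)).1⟩
  ne := fun z hz h0 => by
    obtain ⟨c, K, hc, -, h⟩ := Pool.Agent.Y671.GL.rgt_of (frm2 hf hχ hco) hF (ε := z.re - 1) (by linarith)
    have := (h z (by linarith)).1
    rw [h0, norm_zero] at this
    linarith
  gro := fun A => by
    have hχ' : (χ⁻¹).IsPrimitive := Pool.Agent.W440.TW.inv_primitive χ hχ
    obtain ⟨F', hFE', hF'⟩ := exists_L hf hχ' hco
    obtain ⟨a, ha⟩ := gro_tw hf hχ hco hFE hF
    obtain ⟨a', ha'⟩ := gro_tw hf hχ' hco hFE' hF'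
    have hK : IsCompact (Set.Icc (1 / 4) A ×ℂ Set.Icc (-1) 1) := isCompact_Icc.reProdIm isCompact_Icc
    obtain ⟨M, hM⟩ := hK.exists_bound_of_continuousOn hF.diff.continuous.continuousOn
    have hq : (1 : ℝ) ≤ q := by exact_mod_cast Nat.one_le_iff_ne_zero.2 (NeZero.ne q)
    have key : ∀ (b y : ℝ), 1 ≤ y → b * (q * y) ^ b ≤ (|b| * (q : ℝ) ^ |b|) * (1 + y) ^ ⌈|b|⌉₊ := by
      intro b y hy
      have h5 : (q * y) ^ b ≤ (q : ℝ) ^ |b| * (1 + y) ^ ⌈|b|⌉₊ := by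
        calc (q * y) ^ b ≤ (q * y) ^ |b| := by
              apply Real.rpow_le_rpow_of_exponent_le (by nlinarith)
              exact le_abs_self b
          _ = (q : ℝ) ^ |b| * y ^ |b| := Real.mul_rpow (by linarith) (by linarith)
          _ ≤ (q : ℝ) ^ |b| * (1 + y) ^ ⌈|b|⌉₊ := by
              gcongr
              calc y ^ |b| ≤ y ^ (⌈|b|⌉₊ : ℝ) := Real.rpow_le_rpow_of_exponent_le hy (Nat.le_ceil _)
                _ = y ^ ⌈|b|⌉₊ := Real.rpow_natCast _ _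
                _ ≤ _ := by gcongr; linarith
      calc b * (q * y) ^ b ≤ |b| * (q * y) ^ b := by
            apply mul_le_mul_of_nonneg_right (le_abs_self b)
            positivity
        _ ≤ |b| * ((q : ℝ) ^ |b| * (1 + y) ^ ⌈|b|⌉₊) := by gcongr
        _ = _ := by ring
    obtain ⟨C1, hC1⟩ : ∃ C1 : ℝ, C1 = |a| * (q : ℝ) ^ |a| := ⟨_, rfl⟩
    obtain ⟨C2, hC2⟩ : ∃ C2 : ℝ, C2 = |a'| * (q : ℝ) ^ |a'| := ⟨_, rfl⟩
    have hC10 : 0 ≤ C1 := by rw [hC1]; positivity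
    have hC20 : 0 ≤ C2 := by rw [hC2]; positivity
    refine ⟨C1 + C2 + |M| + 1, ⌈|a|⌉₊ + ⌈|a'|⌉₊, by positivity, ?_⟩
    intro z h1 h2
    have hy0 := abs_nonneg z.im
    have hP : (1 : ℝ) ≤ (1 + |z.im|) ^ (⌈|a|⌉₊ + ⌈|a'|⌉₊) := one_le_pow₀ (by linarith)
    have hP1 : (1 + |z.im|) ^ ⌈|a|⌉₊ ≤ (1 + |z.im|) ^ (⌈|a|⌉₊ + ⌈|a'|⌉₊) :=
      pow_le_pow_right₀ (by linarith) (Nat.le_add_right _ _)
    have hP2 : (1 + |z.im|) ^ ⌈|a'|⌉₊ ≤ (1 + |z.im|) ^ (⌈|a|⌉₊ + ⌈|a'|⌉₊) :=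
      pow_le_pow_right₀ (by linarith) (Nat.le_add_left _ _)
    have hP0 : 0 ≤ (1 + |z.im|) ^ (⌈|a|⌉₊ + ⌈|a'|⌉₊) := by linarith
    have hM0 := abs_nonneg M
    rcases le_or_gt 1 z.im with h3 | h3
    · have h4 := (ha z (by linarith) h3).trans (key a z.im h3)
      rw [← hC1] at h4
      have h4' : z.im = |z.im| := (abs_of_pos (by linarith)).symm
      rw [h4'] at h4
      have h5 : C1 * (1 + |z.im|) ^ ⌈|a|⌉₊ ≤ C1 * (1 + |z.im|) ^ (⌈|a|⌉₊ + ⌈|a'|⌉₊) := by gcongr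
      nlinarith
    · rcases le_or_gt z.im (-1) with h4 | h4
      · have h5 := ha' (conj z) (by simp; linarith) (by simp; linarith)
        rw [L_conj hF hF', Complex.norm_conj] at h5
        have h6 := h5.trans (key a' (conj z).im (by simp; linarith))
        have h7 : (conj z).im = |z.im| := by
          rw [Complex.conj_im, abs_of_neg (by linarith)]
        rw [← hC2, h7] at h6
        have h8 : C2 * (1 + |z.im|) ^ ⌈|a'|⌉₊ ≤ C2 * (1 + |z.im|) ^ (⌈|a|⌉₊ + ⌈|a'|⌉₊) := by gcongr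
        nlinarith
      · have h5 := hM z ⟨⟨h1, h2⟩, ⟨h4.le, h3.le⟩⟩
        have h6 := le_abs_self M
        nlinarith

/-- **density theorem for the twists** -/
theorem off_tw (hf : IsForm N f w) (hχ : χ.IsPrimitive) (hco : Nat.Coprime q N) :
    ∃ (H X Z : ℂ → ℂ), GG 1 H X Z ∧ (∀ s : ℂ, X s = 0 → |s.re| ≤ 1 / 2) ∧ (∃ z, X z ≠ 0) ∧
      (∃ v : ℂ, v ≠ 0 ∧ ∃ σ : ℝ, ∀ s : ℂ, σ ≤ s.re → X (s - 1) = v * facE f χ s) ∧
      ∀ a : ℝ, a < 1 → ∃ C : ℝ, 0 < C ∧ ∀ d T : ℝ, 0 ≤ d → 2 ≤ T →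
      ∀ S : Finset ℂ, (∀ z ∈ S, z ∈ SX X d T) →
        ∑ z ∈ S, (analyticOrderNatAt X z : ℝ) ≤ C * T ^ (1 - a * d) * Real.log T := by
  obtain ⟨c, u, X, Z, hD, hL, hv⟩ := ldata_tw hf hχ hco
  have hfrm := frm2 hf hχ hco
  have hcg := cg_of hfrm hL hD
  obtain ⟨h1, h2⟩ := Pool.Agent.Y693.GL.strip_of (by norm_num) hfrm hL hD
  obtain ⟨F, hFE, hF⟩ := exists_L hf hχ hco
  have hFZ : F = Z := by
    have hev : F =ᶠ[𝓝 (2 : ℂ)] Z := by
      have hopen : IsOpen {s : ℂ | 1 < s.re} := isOpen_lt continuous_const Complex.continuous_re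
      filter_upwards [hopen.mem_nhds (show (2 : ℂ) ∈ {s : ℂ | 1 < s.re} by simp)] with s hs
      rw [hF.ser s hs, hL.ser s hs]
    exact AnalyticOnNhd.eq_of_eventuallyEq (fun z _ => hF.diff.analyticAt z) (fun z _ => hL.diff.analyticAt z) hev
  subst hFZ
  refine ⟨_, X, F, ⟨hcg, goodX_of hfrm hL hcg.cf, topL_of hfrm hL hcg.cf⟩, h1, h2, hv, ?_⟩
  exact fun a ha => off_ld (by norm_num) hD (lfn_tw hf hχ hco hFE hF) h1
    (fun κ h3 h4 => Pool.Agent.Y24.GL.mol hfrm hF (by linarith) h4.le) ha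

section field
variable {M : ℕ} [NeZero M] (G : Subgroup (DirichletCharacter ℂ M)) [Fintype G]

/-- density theorem for the completed L-function over an abelian field, in the normalisation of `GY` -/
theorem off_ab (hf : IsForm N f w) (hco : Nat.Coprime M N) {Λ : ℂ → ℂ} (hd : Differentiable ℂ Λ)
    (hΛ : ∃ σ : ℝ, ∀ s : ℂ, σ ≤ s.re → Λ s = prodE G f s) :
    ∃ (X : ℂ → ℂ), Differentiable ℂ X ∧ (∀ s : ℂ, X s = 0 → |s.re| ≤ 1 / 2) ∧
      (∃ v : ℂ, v ≠ 0 ∧ ∀ z : ℂ, X z = v * Λ (1 + z)) ∧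
      ∀ a : ℝ, a < 1 → ∃ C : ℝ, 0 < C ∧ ∀ d T : ℝ, 0 ≤ d → 2 ≤ T →
      ∀ S : Finset ℂ, (∀ z ∈ S, z ∈ SX X d T) →
        ∑ z ∈ S, (analyticOrderNatAt X z : ℝ) ≤ C * T ^ (1 - a * d) * Real.log T := by
  classical
  have hone : ∀ χ : G, ∃ (H X Z : ℂ → ℂ), GG 1 H X Z ∧ (∀ s : ℂ, X s = 0 → |s.re| ≤ 1 / 2) ∧ (∃ z, X z ≠ 0) ∧
      (∃ v : ℂ, v ≠ 0 ∧ ∃ σ : ℝ, ∀ s : ℂ, σ ≤ s.re →
        X (s - 1) = v * facE f (χ : DirichletCharacter ℂ M).primitiveCharacter s) ∧
      ∀ a : ℝ, a < 1 → ∃ C : ℝ, 0 < C ∧ ∀ d T : ℝ, 0 ≤ d → 2 ≤ T →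
      ∀ S : Finset ℂ, (∀ z ∈ S, z ∈ SX X d T) →
        ∑ z ∈ S, (analyticOrderNatAt X z : ℝ) ≤ C * T ^ (1 - a * d) * Real.log T := by
    intro χ
    haveI : NeZero (χ : DirichletCharacter ℂ M).conductor := ⟨DirichletCharacter.conductor_ne_zero _⟩
    exact off_tw hf (DirichletCharacter.primitiveCharacter_isPrimitive _) (coprime_cond hco _)
  choose H X Z h1 h2 h3 h4 h5 using hone
  choose v hv σ hσ using h4
  have hXd : ∀ χ : G, Differentiable ℂ (X χ) := fun χ => (h1 χ).cg.cf.diff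
  have hPd : Differentiable ℂ (fun z => ∏ χ : G, X χ z) :=
    Differentiable.fun_finsetProd (𝕜 := ℂ) (u := Finset.univ) (f := X) fun χ _ => hXd χ
  refine ⟨fun z => ∏ χ : G, X χ z, hPd, ?_, ⟨∏ χ : G, v χ, Finset.prod_ne_zero_iff.2 fun χ _ => hv χ, ?_⟩, ?_⟩
  · intro s hs
    obtain ⟨χ, -, hχ⟩ := Finset.prod_eq_zero_iff.1 hs
    exact h2 χ s hχ
  · obtain ⟨σ', hσ'⟩ := hΛ
    have hd1 : Differentiable ℂ (fun s : ℂ => ∏ χ : G, X χ (s - 1)) := hPd.comp (g := fun z => ∏ χ : G, X χ z)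
      (f := fun s : ℂ => s - 1) (by fun_prop)
    have hd2 : Differentiable ℂ (fun s : ℂ => (∏ χ : G, v χ) * Λ s) := hd.const_mul _
    have he := Pk.uniq (G := fun s => (∏ χ : G, v χ) * prodE G f s) hd2 hd1 ⟨σ', fun s hs => by
      show (∏ χ : G, v χ) * Λ s = (∏ χ : G, v χ) * prodE G f s
      rw [hσ' s hs]⟩ ⟨∑ χ : G, |σ χ|, fun s hs => by
      show ∏ χ : G, X χ (s - 1) = (∏ χ : G, v χ) * prodE G f s
      unfold prodE
      rw [← Finset.prod_mul_distrib]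
      refine Finset.prod_congr rfl fun χ _ => hσ χ s ?_
      refine le_trans ?_ hs
      refine (le_abs_self _).trans ?_
      exact Finset.single_le_sum (f := fun χ : G => |σ χ|) (fun _ _ => abs_nonneg _) (Finset.mem_univ χ)⟩
    intro z
    have h6 := congrFun he (1 + z)
    simpa using h6
  · intro a ha
    exact off_prod X hXd h2 fun χ => h5 χ a ha

end field

end Pool.Agent.Q9.RH
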