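import Pool.Agent.Q9.RH.Fin
import Pool.Agent.Y671.GL.Shift

/-!
# The heat flow of the completed L-functions of an elliptic curve over abelian fields of degree at most five
-/

set_option autoImplicit false

namespace Pool.Agent.Q9.RH

open UpperHalfPlane hiding I
open MatrixGroups CongruenceSubgroup Filter Topology Complex MeasureTheory
open scoped ComplexConjugate
open Pool.Agent.Y671.GL
open Pool.Agent.W169.HF (IsForm coef heat)
open Pool.Agent.W355.UN (facE prodE condA Pk coprime_cond)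
open Pool.Agent.Y693.GL (gg_tw mul heat_tr huge_of)
open Pool.Agent.TH839.UH (Flow lD)

theorem gg_prod {ι : Type*} [DecidableEq ι] (s : Finset ι) (hs : s.Nonempty) (H X Z : ι → ℂ → ℂ)
    (h : ∀ i ∈ s, GG 1 (H i) (X i) (Z i)) :
    GG (s.card : ℝ) (fun w => ∏ i ∈ s, H i w) (fun w => ∏ i ∈ s, X i w) (fun w => ∏ i ∈ s, Z i w) := by
  induction hs using Finset.Nonempty.cons_induction with
  | singleton a =>
    simp only [Finset.card_singleton, Finset.prod_singleton, Nat.cast_one]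
    exact h a (Finset.mem_singleton_self a)
  | cons a s ha hs ih =>
    have h1 := h a (Finset.mem_cons_self a s)
    have h2 := ih fun i hi => h i (Finset.mem_cons_of_mem hi)
    have h3 := mul _ _ _ _ _ _ _ _ h1 h2
    simp only [Finset.card_cons, Finset.prod_cons, Nat.cast_add, Nat.cast_one]
    rw [add_comm (s.card : ℝ) 1]
    exact h3

variable {M : ℕ} [NeZero M] (G : Subgroup (DirichletCharacter ℂ M)) [Fintype G]
variable {N : ℕ} [NeZero N] {f : CuspForm (Gamma0 N : Subgroup (GL (Fin 2) ℝ)) 2} {w : ℝ}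

theorem gg_ab (hf : IsForm N f w) (hco : Nat.Coprime M N) :
    ∃ (H X Z : ℂ → ℂ), GG (Fintype.card G : ℝ) H X Z ∧ (∀ s : ℂ, X s = 0 → |s.re| ≤ 1 / 2) ∧ (∃ z, X z ≠ 0) ∧
      ∃ v : ℂ, v ≠ 0 ∧ ∃ σ : ℝ, ∀ s : ℂ, σ ≤ s.re → X (s - 1) = v * prodE G f s := by
  classical
  have hone : ∀ χ : G, ∃ (H X Z : ℂ → ℂ), GG 1 H X Z ∧ (∀ s : ℂ, X s = 0 → |s.re| ≤ 1 / 2) ∧ (∃ z, X z ≠ 0) ∧
      ∃ v : ℂ, v ≠ 0 ∧ ∃ σ : ℝ, ∀ s : ℂ, σ ≤ s.re →
        X (s - 1) = v * facE f (χ : DirichletCharacter ℂ M).primitiveCharacter s := by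
    intro χ
    haveI : NeZero (χ : DirichletCharacter ℂ M).conductor := ⟨DirichletCharacter.conductor_ne_zero _⟩
    exact gg_tw hf (DirichletCharacter.primitiveCharacter_isPrimitive _) (coprime_cond hco _)
  choose H X Z h1 h2 h3 v h4 σ h5 using hone
  refine ⟨fun w => ∏ χ : G, H χ w, fun w => ∏ χ : G, X χ w, fun w => ∏ χ : G, Z χ w, ?_, ?_, ?_,
    ∏ χ : G, v χ, Finset.prod_ne_zero_iff.2 fun χ _ => h4 χ, ∑ χ : G, |σ χ|, ?_⟩
  · have := gg_prod (Finset.univ : Finset G) ⟨1, Finset.mem_univ _⟩ H X Z fun χ _ => h1 χ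
    rw [Finset.card_univ] at this
    exact this
  · intro s hs
    obtain ⟨χ, -, hχ⟩ := Finset.prod_eq_zero_iff.1 hs
    exact h2 χ s hχ
  · refine ⟨1, Finset.prod_ne_zero_iff.2 fun χ _ => ?_⟩
    intro h0
    have := h2 χ 1 h0
    norm_num at this
  · intro s hs
    unfold prodE
    rw [← Finset.prod_mul_distrib]
    refine Finset.prod_congr rfl fun χ _ => h5 χ s ?_
    refine le_trans ?_ hs
    refine (le_abs_self _).trans ?_
    exact Finset.single_le_sum (f := fun χ : G => |σ χ|) (fun _ _ => abs_nonneg _) (Finset.mem_univ χ)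

theorem gg_Lam (hf : IsForm N f w) (hco : Nat.Coprime M N) {Λ : ℂ → ℂ} (hd : Differentiable ℂ Λ)
    (hΛ : ∃ σ : ℝ, ∀ s : ℂ, σ ≤ s.re → Λ s = prodE G f s) :
    ∃ (H X Z : ℂ → ℂ), GG (Fintype.card G : ℝ) H X Z ∧ (∀ s : ℂ, X s = 0 → |s.re| ≤ 1 / 2) ∧ (∃ z, X z ≠ 0) ∧
      ∃ v : ℂ, v ≠ 0 ∧ ∀ z : ℂ, X z = v * Λ (1 + z) := by
  obtain ⟨H, X, Z, h1, h2, h3, v, h4, σ, h5⟩ := gg_ab G hf hco
  refine ⟨H, X, Z, h1, h2, h3, v, h4, ?_⟩
  obtain ⟨σ', hσ'⟩ := hΛ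
  have hXd := h1.cg.cf.diff
  have hd1 : Differentiable ℂ (fun s : ℂ => X (s - 1)) := hXd.comp (by fun_prop)
  have hd2 : Differentiable ℂ (fun s : ℂ => v * Λ s) := hd.const_mul v
  have he := Pk.uniq (G := fun s => v * prodE G f s) hd2 hd1 ⟨σ', fun s hs => by
    show v * Λ s = v * prodE G f s
    rw [hσ' s hs]⟩ ⟨σ, h5⟩
  intro z
  have h6 := congrFun he (1 + z)
  simpa using h6

/-- **the heat flow over abelian fields of degree at most five** -/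
theorem heat_ab {C0 : ℝ} (hC0 : 0 < C0) (h5 : Fintype.card G ≤ 5) (hf : IsForm N f w) (hco : Nat.Coprime M N)
    {Λ : ℂ → ℂ} (hd : Differentiable ℂ Λ) (hΛ : ∃ σ : ℝ, ∀ s : ℂ, σ ≤ s.re → Λ s = prodE G f s)
    (hF : Flow C0 (Fintype.card G) (condA G N) Λ) :
    heat 0 Λ = Λ ∧ (∀ t T : ℝ, 0 ≤ t → (ZH Λ t T).Finite) ∧ ∃ c C : ℝ, 0 < c ∧ 0 < C ∧
      ∀ t T : ℝ, 0 < t → t ≤ 1 / 8 → 2 ≤ T →
      (nu (heat t Λ) (EH Λ 1 t T) : ℝ) ≤ C * Real.exp (-(c * t * Real.log T ^ 2)) * nu (heat t Λ) (ZH Λ t T) ∧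
      (nu (heat t Λ) (EH Λ 1 t T) : ℝ) ≤ C * Real.exp (-(c * t * Real.log T ^ 2)) * T * Real.log T := by
  obtain ⟨H, X, Z, h1, h2, h3, v, hv, h4⟩ := gg_Lam G hf hco hd hΛ
  have hcard : 1 ≤ Fintype.card G := Fintype.card_pos
  have hA : 1 ≤ condA G N := by
    unfold condA
    have hN1 : (1 : ℝ) ≤ N := by exact_mod_cast Nat.one_le_iff_ne_zero.2 (NeZero.ne N)
    have e1 : (1 : ℝ) = ∏ _χ : G, (1 : ℝ) := by simp
    rw [e1]
    refine Finset.prod_le_prod (fun _ _ => zero_le_one) fun χ _ => ?_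
    have hc : (1 : ℝ) ≤ ((χ : DirichletCharacter ℂ M).conductor : ℝ) := by
      exact_mod_cast Nat.one_le_iff_ne_zero.2 (DirichletCharacter.conductor_ne_zero _)
    exact one_le_mul_of_one_le_of_one_le hN1 (one_le_pow₀ hc)
  obtain ⟨K, hK, hslow⟩ := h1.cg.slow
  have hXs : Pool.Agent.W169.HF.Slow X := slow_of h1.cg.cf.diff hK hslow
  obtain ⟨h6, -⟩ := Pool.Agent.Y275.GL.hht X hXs h1.cg.cf.symm h3 h2
  have h0 : heat 0 Λ = Λ := by
    funext s
    have h6' := heat_tr h4 0 (s - 1)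
    rw [h6, h4] at h6'
    have e1 : (1 : ℂ) + (s - 1) = s := by ring
    rw [e1] at h6'
    exact (mul_left_cancel₀ hv h6').symm
  have happ : AppX X := Pool.Agent.Y275.GL.had1 X h1.cg.cf.diff h1.cg.cf.symm h3 h1.cg.slow h2
  have hhuge : HugeX X := huge_of hC0 hcard hA hv h4 hF
  have hκ : (1 / 2 : ℝ) ≤ (Fintype.card G : ℝ) := by
    have : (1 : ℝ) ≤ Fintype.card G := by exact_mod_cast hcard
    linarith
  have hκ5 : (Fintype.card G : ℝ) ≤ 5 := by exact_mod_cast h5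
  have hXe : X = fun z => v * Λ (((1 : ℝ) : ℂ) + z) := by
    funext z
    rw [h4, Complex.ofReal_one]
  rw [hXe] at h1 h2 happ hhuge
  exact ⟨h0, countH_shift hκ hκ5 hv h1 happ h2 hhuge⟩

end Pool.Agent.Q9.RH
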