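import Pool.Agent.Y771.NF.Dn
import Pool.Agent.Y671.GL.EC

/-!
# The completed L-function of an elliptic curve as a Mellin transform; change of variables
-/

set_option autoImplicit false

namespace Pool.Agent.Q9.RH

open UpperHalfPlane hiding I
open MatrixGroups CongruenceSubgroup Filter Topology Complex MeasureTheory
open scoped ComplexConjugate
open Pool.Agent.W169.HF (IsForm IsCompleted coef heat)

/-- orders under `z ↦ 1 + i z` -/
theorem ord_rot {L G : ℂ → ℂ} (hL : Differentiable ℂ L) (hG : ∀ z, G z = L (1 + I * z)) (z : ℂ) :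
    analyticOrderNatAt G z = analyticOrderNatAt L (1 + I * z) := by
  have h1 : G = L ∘ fun z => 1 + I * z := funext hG
  have hg1 : AnalyticAt ℂ (fun z : ℂ => 1 + I * z) z := by fun_prop
  have hg' : deriv (fun z : ℂ => 1 + I * z) z ≠ 0 := by
    rw [deriv_const_add, deriv_const_mul _ differentiableAt_id]
    simp
  have h2 : analyticOrderAt (L ∘ fun z => 1 + I * z) z = analyticOrderAt L (1 + I * z) :=
    analyticOrderAt_comp_of_deriv_ne_zero hg1 hg'
  unfold analyticOrderNatAt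
  rw [h1, h2]

theorem rot_inj : Function.Injective fun z : ℂ => 1 + I * z := by
  intro a b h
  exact mul_left_cancel₀ I_ne_zero (add_left_cancel h)

theorem rot_surj (s : ℂ) : (1 : ℂ) + I * (-I * (s - 1)) = s := by
  have : I * I = -1 := I_mul_I
  linear_combination -(s - 1) * this

/-- transfer of finiteness and of the number of points with multiplicity -/
theorem num_transfer {L G : ℂ → ℂ} (hL : Differentiable ℂ L) (hG : ∀ z, G z = L (1 + I * z)) {A B : Set ℂ}
    (hAB : ∀ z, z ∈ A ↔ 1 + I * z ∈ B) :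
    (A.Finite → B.Finite) ∧ ∑ᶠ z ∈ A, analyticOrderNatAt G z = ∑ᶠ s ∈ B, analyticOrderNatAt L s := by
  have himg : (fun z : ℂ => 1 + I * z) '' A = B := by
    ext s
    constructor
    · rintro ⟨z, hz, rfl⟩
      exact (hAB z).1 hz
    · intro hs
      refine ⟨-I * (s - 1), (hAB _).2 ?_, rot_surj s⟩
      rw [rot_surj]
      exact hs
  refine ⟨fun h => himg ▸ h.image _, ?_⟩
  refine finsum_mem_eq_of_bijOn (fun z : ℂ => 1 + I * z) ⟨?_, rot_inj.injOn, ?_⟩ fun z _ => ord_rot hL hG z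
  · intro z hz
    exact (hAB z).1 hz
  · rw [← himg]
    exact Set.surjOn_image _ _

variable {N : ℕ} [NeZero N] {f : CuspForm (Gamma0 N : Subgroup (GL (Fin 2) ℝ)) 2} {w : ℝ}

theorem completed_lam (hf : IsForm N f w) :
    IsCompleted f (Pool.Agent.Y771.NF.Lam (k := 2) (f : CuspForm (Gamma0 N : Subgroup (GL (Fin 2) ℝ)) ((2 : ℕ) : ℤ))) := by
  have hnf := Pool.Agent.Y671.GL.newf_of_form hf
  refine ⟨Pool.Agent.Y771.NF.Lam_diff (k := 2) (by norm_num) hnf, fun s hs => ?_⟩
  have h := Pool.Agent.Y771.NF.Lam_ser (k := 2) (by norm_num) hnf s (by norm_num; exact hs)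
  exact h

theorem lam_eq (hf : IsForm N f w) {L : ℂ → ℂ} (hL : IsCompleted f L) :
    L = Pool.Agent.Y771.NF.Lam (k := 2) (f : CuspForm (Gamma0 N : Subgroup (GL (Fin 2) ℝ)) ((2 : ℕ) : ℤ)) :=
  Pool.Agent.W169.HF.completed_unique hL (completed_lam hf)

/-- the zeros off the line -/
def Off (L : ℂ → ℂ) (d T : ℝ) : Set ℂ := {s | L s = 0 ∧ d ≤ |s.re - 1| ∧ 0 < s.im ∧ s.im ≤ T}

/-- **the density theorem** for the completed L-function of an elliptic curve -/
theorem density (hf : IsForm N f w) {L : ℂ → ℂ} (hL : IsCompleted f L) {c : ℝ} (hc : c < 1) :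
    ∃ C : ℝ, 0 < C ∧ ∀ d T : ℝ, 0 ≤ d → 2 ≤ T →
      (Off L d T).Finite ∧ ((∑ᶠ s ∈ Off L d T, analyticOrderNatAt L s : ℕ) : ℝ) ≤
        C * T ^ (1 - c * d) * Real.log T := by
  have hnf := Pool.Agent.Y671.GL.newf_of_form hf
  obtain ⟨C, hC, h⟩ := Pool.Agent.Y771.NF.off (k := 2) (by norm_num) hnf (fun z => L (1 + I * z)) (fun z => by
    rw [lam_eq hf hL]
    norm_num) hc
  refine ⟨C, hC, fun d T hd hT => ?_⟩
  obtain ⟨h1, h2⟩ := h d T hd hT
  obtain ⟨h3, h4⟩ := num_transfer (G := fun z => L (1 + I * z)) hL.1 (fun z => rfl)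
    (A := Pool.Agent.Y771.NF.OffD (fun z => L (1 + I * z)) d T) (B := Off L d T) (fun z => by
      unfold Off Pool.Agent.Y771.NF.OffD
      simp)
  refine ⟨h3 h1, ?_⟩
  rw [← h4]
  exact h2

end Pool.Agent.Q9.RH
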