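import Pool.Agent.Q9.RH.Fin
import Pool.Agent.Q9.RH.Ec

/-!
# Horizontal growth for the completed L-function of an elliptic curve over `ℚ`
-/

set_option autoImplicit false

namespace Pool.Agent.Q9.RH

open UpperHalfPlane hiding I
open MatrixGroups CongruenceSubgroup Filter Topology Complex MeasureTheory
open scoped ComplexConjugate
open Pool.Agent.W169.HF (IsForm IsCompleted coef heat)
open Pool.Agent.Y693.GL (ord_tr)

variable {N : ℕ} [NeZero N] {f : CuspForm (Gamma0 N : Subgroup (GL (Fin 2) ℝ)) 2} {w : ℝ}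

theorem res_q (hf : IsForm N f w) {L : ℂ → ℂ} (hL : IsCompleted f L) : Res L := by
  classical
  obtain ⟨u, H, Z, hu, h1, h2, -, -, -⟩ := Pool.Agent.Y671.GL.ec_data hf hL
  refine res_of (κ := 1) (by norm_num) h1.cg h2 hu (fun z => rfl) hL.1 fun a ha => ?_
  obtain ⟨C, hC, h⟩ := density hf hL ha
  refine ⟨C, hC, fun d T hd hT S hS => ?_⟩
  obtain ⟨h3, h4⟩ := h d T hd hT
  refine le_trans ?_ h4
  have hsub : (S.image fun z : ℂ => z + 1) ⊆ h3.toFinset := by
    intro s hs
    rw [Finset.mem_image] at hs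
    obtain ⟨z, hz, rfl⟩ := hs
    rw [Set.Finite.mem_toFinset]
    obtain ⟨a1, a2, a3, a4⟩ := hS z hz
    refine ⟨?_, by simpa using a2, by simpa using a3, by simpa using a4⟩
    have a1' : u * L (1 + z) = 0 := a1
    rcases mul_eq_zero.1 a1' with a5 | a5
    · exact absurd a5 hu
    · rwa [add_comm] at a5
  have h5 : ∑ᶠ s ∈ Off L d T, analyticOrderNatAt L s = ∑ s ∈ h3.toFinset, analyticOrderNatAt L s :=
    finsum_mem_eq_finite_toFinset_sum _ h3
  rw [h5]
  have h6 : ∑ z ∈ S, analyticOrderNatAt (fun z => u * L (1 + z)) z =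
      ∑ s ∈ S.image (fun z : ℂ => z + 1), analyticOrderNatAt L s := by
    rw [Finset.sum_image (fun x _ y _ hxy => add_right_cancel hxy)]
    refine Finset.sum_congr rfl fun z _ => ?_
    have := ord_tr hu hL.1 (Φ := fun z => u * L (1 + z)) (fun z => rfl) (z + 1)
    rw [add_sub_cancel_right] at this
    exact this
  have h7 : ∑ z ∈ S, analyticOrderNatAt (fun z => u * L (1 + z)) z ≤ ∑ s ∈ h3.toFinset, analyticOrderNatAt L s := by
    rw [h6]
    exact Finset.sum_le_sum_of_subset hsub
  exact_mod_cast h7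

end Pool.Agent.Q9.RH
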