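import Pool.Agent.Q9.RH.Grow2
import Pool.Agent.Q9.RH.Tw
import Pool.Agent.Y693.GL.Asm

/-!
# Density theorem and horizontal growth for the completed L-functions of an elliptic curve over abelian fields
-/

set_option autoImplicit false

namespace Pool.Agent.Q9.RH

open UpperHalfPlane hiding I
open MatrixGroups CongruenceSubgroup Filter Topology Complex MeasureTheory
open scoped ComplexConjugate
open Pool.Agent.W169.HF (IsForm coef heat)
open Pool.Agent.W355.UN (facE prodE)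
open Pool.Agent.Y693.GL (gy_Lam ord_tr)
open Pool.Agent.Y22.RX (S Bad)

variable {N : ℕ} [NeZero N] {f : CuspForm (Gamma0 N : Subgroup (GL (Fin 2) ℝ)) 2} {w : ℝ}
variable {M : ℕ} [NeZero M] (G : Subgroup (DirichletCharacter ℂ M)) [Fintype G]

/-- the zeros of `L` with imaginary part in `(0, T]` at distance at least `d` from `Re s = 1` -/
def OffK (L : ℂ → ℂ) (d T : ℝ) : Set ℂ := {s | L s = 0 ∧ d ≤ |s.re - 1| ∧ 0 < s.im ∧ s.im ≤ T}

/-- the theorem on the zeros and the growth -/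
structure Res (Λ : ℂ → ℂ) : Prop where
  fin : ∀ d T : ℝ, (OffK Λ d T).Finite
  dens : ∀ c : ℝ, c < 1 → ∃ C : ℝ, 0 < C ∧ ∀ d T : ℝ, 0 ≤ d → 2 ≤ T →
    ((∑ᶠ s ∈ OffK Λ d T, analyticOrderNatAt Λ s : ℕ) : ℝ) ≤ C * T ^ (1 - c * d) * Real.log T
  rh : (∀ s : ℂ, Λ s = 0 → s.re = 1) ↔ ∀ t : ℝ, StrictMonoOn (fun x : ℝ => ‖Λ (1 + x + t * I)‖) (Set.Ici 0)
  grow : ∀ c : ℝ, c < 1 → ∃ C : ℝ, 0 < C ∧ ∀ r T : ℝ, 0 ≤ r → 2 ≤ T →
    volume (BadL Λ (r / Real.log T) T) ≤ ENNReal.ofReal (C * Real.exp (-(c * r)) * T)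

theorem res_of {κ : ℝ} {H X Z Λ : ℂ → ℂ} {v : ℂ} (hκ : 1 / 2 ≤ κ) (h : Pool.Agent.Y671.GL.CG κ H X Z)
    (hst : ∀ s : ℂ, X s = 0 → |s.re| ≤ 1 / 2) (hv : v ≠ 0) (hX : ∀ z : ℂ, X z = v * Λ (1 + z))
    (hd : Differentiable ℂ Λ)
    (hdens : ∀ a : ℝ, a < 1 → ∃ C : ℝ, 0 < C ∧ ∀ d T : ℝ, 0 ≤ d → 2 ≤ T →
      ∀ S : Finset ℂ, (∀ z ∈ S, z ∈ SX X d T) →
        ∑ z ∈ S, (analyticOrderNatAt X z : ℝ) ≤ C * T ^ (1 - a * d) * Real.log T) : Res Λ := by
  classical
  have hsy := sy_of_cg hκ h hst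
  have hXd := h.cf.diff
  have hmem : ∀ d T : ℝ, ∀ s : ℂ, s ∈ OffK Λ d T ↔ s - 1 ∈ SX X d T := by
    intro d T s
    have e0 : (1 : ℂ) + (s - 1) = s := by ring
    have e1 : X (s - 1) = 0 ↔ Λ s = 0 := by
      rw [hX, e0, mul_eq_zero]
      simp [hv]
    unfold OffK SX
    rw [Set.mem_setOf_eq, Set.mem_setOf_eq, e1]
    simp
  have hfinX := SX_fin hXd hst
  have himg : ∀ d T : ℝ, OffK Λ d T = (fun z : ℂ => z + 1) '' SX X d T := by
    intro d T
    ext s
    rw [hmem]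
    constructor
    · intro hs
      exact ⟨s - 1, hs, by ring⟩
    · rintro ⟨z, hz, rfl⟩
      simpa using hz
  have hfin : ∀ d T : ℝ, (OffK Λ d T).Finite := fun d T => by
    rw [himg]
    exact (hfinX d T).image _
  have hord : ∀ s : ℂ, analyticOrderNatAt X (s - 1) = analyticOrderNatAt Λ s := fun s => ord_tr hv hd hX s
  refine ⟨hfin, fun c hc => ?_, rh_iff_growth hv hX hsy, fun c hc => ?_⟩
  · obtain ⟨C, hC, h1⟩ := hdens c hc
    refine ⟨C, hC, fun d T hd hT => ?_⟩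
    have h2 := h1 d T hd hT (hfinX d T).toFinset (fun z hz => by rwa [Set.Finite.mem_toFinset] at hz)
    have h3 : ∑ᶠ s ∈ OffK Λ d T, analyticOrderNatAt Λ s = ∑ z ∈ (hfinX d T).toFinset, analyticOrderNatAt X z := by
      rw [← finsum_mem_eq_finite_toFinset_sum]
      symm
      refine finsum_mem_eq_of_bijOn (fun z : ℂ => z + 1) ⟨?_, ?_, ?_⟩ fun z _ => ?_
      · intro z hz
        rw [himg]
        exact ⟨z, hz, rfl⟩
      · intro a _ b _ hab
        exact add_right_cancel hab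
      · rw [himg]
        exact Set.surjOn_image _ _
      · rw [← hord, add_sub_cancel_right]
    rw [h3]
    push_cast
    exact h2
  · obtain ⟨C, hC, h1⟩ := hsy.bad_all (fun a ha => by
      obtain ⟨C, hC, h2⟩ := hdens a ha
      refine ⟨C, hC, fun d T hd hT => ⟨hfinX d T, ?_⟩⟩
      have h3 := h2 d T hd hT (hfinX d T).toFinset (fun z hz => by rwa [Set.Finite.mem_toFinset] at hz)
      refine le_trans ?_ h3
      have h4 : (SX X d T).ncard = ∑ z ∈ (hfinX d T).toFinset, 1 := by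
        rw [Finset.sum_const, smul_eq_mul, mul_one, Set.ncard_eq_toFinset_card _ (hfinX d T)]
      show (((SX X d T).ncard : ℕ) : ℝ) ≤ _
      rw [h4]
      push_cast
      refine Finset.sum_le_sum fun z hz => ?_
      rw [Set.Finite.mem_toFinset] at hz
      have h5 : analyticOrderNatAt X z ≠ 0 := by
        intro h0
        have h6 : analyticOrderAt X z ≠ ⊤ := by
          intro h7
          rw [analyticOrderAt_eq_top] at h7
          have h8 : AnalyticOnNhd ℂ X Set.univ := fun z _ => hXd.analyticAt z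
          exact hsy.ne (h8.eqOn_zero_of_preconnected_of_eventuallyEq_zero isPreconnected_univ (Set.mem_univ z) h7
            (Set.mem_univ 1))
        have h7 : analyticOrderAt X z = 0 := by
          rw [← Nat.cast_analyticOrderNatAt h6, h0]
          rfl
        exact ((hXd.analyticAt z).analyticOrderAt_eq_zero.mp h7) hz.1
      exact_mod_cast Nat.one_le_iff_ne_zero.2 h5) hc
    refine ⟨C, hC, fun r T hr hT => ?_⟩
    rw [badL_eq hv hX]
    exact h1 r T hr hT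

/-- **abelian fields** -/
theorem res_ab (hf : IsForm N f w) (hco : Nat.Coprime M N) {Λ : ℂ → ℂ} (hd : Differentiable ℂ Λ)
    (hΛ : ∃ σ : ℝ, ∀ s : ℂ, σ ≤ s.re → Λ s = prodE G f s) : Res Λ := by
  obtain ⟨X, hXd, hst, ⟨v, hv, hX⟩, hdens⟩ := off_ab G hf hco hd hΛ
  obtain ⟨H, X', Z, h1, h2, h3, v', hv', hX'⟩ := gy_Lam G hf hco hd hΛ
  have hκ : (1 / 2 : ℝ) ≤ (Fintype.card G : ℝ) := by
    have : (1 : ℝ) ≤ Fintype.card G := by exact_mod_cast Fintype.card_pos
    linarith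
  -- `X` and `X'` are proportional
  have hprop : ∀ z, X' z = (v' * v⁻¹) * X z := by
    intro z
    rw [hX, hX']
    field_simp
  have hmem : ∀ d T : ℝ, ∀ z : ℂ, z ∈ SX X' d T ↔ z ∈ SX X d T := by
    intro d T z
    have e1 : X' z = 0 ↔ X z = 0 := by
      rw [hprop, mul_eq_zero]
      simp [hv, hv']
    unfold SX
    rw [Set.mem_setOf_eq, Set.mem_setOf_eq, e1]
  have hord : ∀ s : ℂ, analyticOrderNatAt X' (s - 1) = analyticOrderNatAt X (s - 1) := by
    intro s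
    rw [ord_tr hv' hd hX' s, ord_tr hv hd hX s]
  refine res_of hκ h1.cg h2 hv' hX' hd fun a ha => ?_
  obtain ⟨C, hC, h⟩ := hdens a ha
  refine ⟨C, hC, fun d T hd hT S hS => ?_⟩
  have h4 := h d T hd hT S (fun z hz => (hmem d T z).1 (hS z hz))
  refine le_trans (le_of_eq ?_) h4
  refine Finset.sum_congr rfl fun z _ => ?_
  have := hord (z + 1)
  rw [add_sub_cancel_right] at this
  rw [this]

end Pool.Agent.Q9.RH
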