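import Pool.Agent.Y22.RX2
import Pool.Agent.Y275.GL.Had1

/-!
# Growth along horizontal rays of functions which are symmetric with respect to the imaginary axis

Generalisation of the starting modules `Pool.Agent.Y22.RX1` and `Pool.Agent.Y22.RX2` (even functions which are
positive at the origin) to all functions with `Φ(-conj z) = conj Φ(z)`, of growth `exp (O(|z|^(3/2)))` and
with zeros in `|Re z| ≤ 1/2`.
-/

set_option autoImplicit false

namespace Pool.Agent.Q9.RH

open MeasureTheory Set Filter Complex Topology Polynomial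
open scoped ComplexConjugate
open Pool.Agent.Y22.RX (sum_le S Bad)

/-- the class of functions -/
structure Sy (Φ : ℂ → ℂ) : Prop where
  diff : Differentiable ℂ Φ
  symm : ∀ z : ℂ, Φ (-(conj z)) = conj (Φ z)
  slow : ∃ K : ℝ, 0 < K ∧ ∀ z : ℂ, ‖Φ z‖ ≤ Real.exp (K * (1 + ‖z‖) ^ (3 / 2 : ℝ))
  strip : ∀ s : ℂ, Φ s = 0 → |s.re| ≤ 1 / 2
  ex : ∃ s : ℂ, Φ s = 0

variable {Φ : ℂ → ℂ}

lemma Sy.ne (h : Sy Φ) : Φ 1 ≠ 0 := by
  intro h0
  have := h.strip 1 h0
  norm_num at this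

theorem Sy.approx (h : Sy Φ) : ∃ p : ℕ → ℂ[X], (∀ N (z : ℂ), (p N).IsRoot z → Φ z = 0 ∨ z.re = 0) ∧
    (∀ z : ℂ, Tendsto (fun N => (p N).eval z) atTop (𝓝 (Φ z ^ 2))) ∧
    ∀ (N : ℕ) (x t : ℝ), ‖(p N).eval (-x + t * I : ℂ)‖ = ‖(p N).eval (x + t * I : ℂ)‖ := by
  have hΦ := h.diff
  have hsym := h.symm
  obtain ⟨K, hK, hb⟩ := h.slow
  obtain ⟨t0, ht0⟩ : ∃ t0 : ℝ, Φ (I * t0) ≠ 0 := by
    have han : AnalyticOnNhd ℂ Φ Set.univ := fun z _ => hΦ.analyticAt z
    rcases (han 0 (Set.mem_univ _)).eventually_eq_zero_or_eventually_ne_zero with h' | h'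
    · exfalso
      exact h.ne (han.eqOn_zero_of_preconnected_of_eventuallyEq_zero isPreconnected_univ
        (Set.mem_univ 0) h' (Set.mem_univ 1))
    · have h1 : Tendsto (fun t : ℝ => I * (t : ℂ)) (𝓝[≠] 0) (𝓝[≠] 0) := by
        rw [tendsto_nhdsWithin_iff]
        constructor
        · have h2 : Tendsto (fun t : ℝ => I * (t : ℂ)) (𝓝 0) (𝓝 (I * ((0 : ℝ) : ℂ))) :=
            (Continuous.tendsto (by fun_prop) 0)
          rw [Complex.ofReal_zero, mul_zero] at h2
          exact h2.mono_left nhdsWithin_le_nhds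
        · filter_upwards [self_mem_nhdsWithin] with t ht h3
          rcases mul_eq_zero.1 h3 with h4 | h4
          · exact Complex.I_ne_zero h4
          · exact ht (by exact_mod_cast h4)
      exact (h1.eventually h').exists
  obtain ⟨f, hf⟩ : ∃ f : ℂ → ℂ, f = fun x => Φ (I * x + I * t0) := ⟨_, rfl⟩
  have hfd : Differentiable ℂ f := by
    rw [hf]
    exact hΦ.comp (by fun_prop)
  have hf0 : f 0 ≠ 0 := by
    rw [hf]
    simpa using ht0
  have hfs : ∀ x, f ((starRingEnd ℂ) x) = (starRingEnd ℂ) (f x) := by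
    intro x
    rw [hf]
    simp only
    rw [← hsym]
    congr 1
    simp only [map_add, map_mul, Complex.conj_I, Complex.conj_ofReal]
    ring
  have hK' : 0 ≤ K * (1 + |t0|) ^ (3 / 2 : ℝ) := by positivity
  have hfb : ∀ w, ‖f w‖ ≤ Real.exp (K * (1 + |t0|) ^ (3 / 2 : ℝ) * (1 + ‖w‖) ^ (3 / 2 : ℝ)) := by
    intro w
    rw [hf]
    refine (hb _).trans (Real.exp_le_exp.2 ?_)
    rw [mul_assoc, ← Real.mul_rpow (by positivity) (by positivity)]
    refine mul_le_mul_of_nonneg_left (Real.rpow_le_rpow (by positivity) ?_ (by norm_num)) hK.le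
    have h1 : ‖I * w + I * (t0 : ℂ)‖ ≤ ‖w‖ + |t0| := by
      refine (norm_add_le _ _).trans (le_of_eq ?_)
      rw [norm_mul, norm_mul, Complex.norm_I, Complex.norm_real, Real.norm_eq_abs, one_mul, one_mul]
    have h2 : 0 ≤ |t0| * ‖w‖ := by positivity
    nlinarith
  obtain ⟨Q, hQ, hlim⟩ := Pool.Agent.Y275.GL.had_real hfd hf0 hfs hK' hfb
  have hpt : ∀ w : ℂ, Tendsto (fun N => (Q N).eval w) atTop (𝓝 (f w)) := fun w =>
    (tendstoLocallyUniformlyOn_univ.mpr hlim).tendsto_at (Set.mem_univ w)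
  have hfΦ : ∀ z : ℂ, f (-I * z - t0) = Φ z := by
    intro z
    have h1 : I * (-I * z - (t0 : ℂ)) + I * (t0 : ℂ) = z := by
      have := Complex.I_mul_I
      linear_combination (-z) * this
    rw [hf]
    simp only [h1]
  -- the conjugate polynomials
  have hconj : ∀ (N : ℕ) (w : ℂ), ((Q N).map (starRingEnd ℂ)).eval w = conj ((Q N).eval (conj w)) := by
    intro N w
    have h1 := Polynomial.eval_map_apply (starRingEnd ℂ) (conj w) (p := Q N)
    rw [Complex.conj_conj] at h1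
    exact h1
  have hR : ∀ (N : ℕ) (w : ℂ), (Q N * (Q N).map (starRingEnd ℂ)).eval w =
      (Q N).eval w * conj ((Q N).eval (conj w)) := by
    intro N w
    rw [eval_mul, hconj]
  have hev : ∀ (N : ℕ) (z : ℂ), ((Q N * (Q N).map (starRingEnd ℂ)).comp (Polynomial.C (-I) * Polynomial.X -
      Polynomial.C (t0 : ℂ))).eval z =
      (Q N).eval (-I * z - t0) * conj ((Q N).eval (conj (-I * z - t0))) := by
    intro N z
    have e1 : (Polynomial.C (-I) * Polynomial.X - Polynomial.C (t0 : ℂ)).eval z = -I * z - t0 := by simp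
    rw [eval_comp, e1, hR]
  refine ⟨fun N => (Q N * (Q N).map (starRingEnd ℂ)).comp (Polynomial.C (-I) * Polynomial.X -
    Polynomial.C (t0 : ℂ)), ?_, ?_, ?_⟩
  · intro N z hr
    rw [Polynomial.IsRoot.def, hev] at hr
    have h1 : (-I * z - (t0 : ℂ)).im = -z.re := by simp
    rcases mul_eq_zero.1 hr with h2 | h2
    · rcases hQ N _ h2 with h3 | h3
      · left
        rwa [hfΦ] at h3
      · right
        rw [h1] at h3
        linarith
    · rw [map_eq_zero] at h2
      rcases hQ N _ h2 with h3 | h3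
      · left
        rwa [hfs, map_eq_zero, hfΦ] at h3
      · right
        rw [Complex.conj_im, h1] at h3
        linarith
  · intro z
    simp only [hev]
    have h1 := hpt (-I * z - t0)
    have h2 := (Complex.continuous_conj.tendsto _).comp (hpt (conj (-I * z - t0)))
    rw [hfs, Complex.conj_conj] at h2
    have h3 := h1.mul h2
    rw [hfΦ, ← pow_two] at h3
    exact h3
  · intro N x t
    simp only [hev]
    have e1 : conj (-I * (-x + t * I : ℂ) - t0) = -I * (x + t * I : ℂ) - t0 := by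
      simp only [map_add, map_sub, map_mul, map_neg, Complex.conj_I, Complex.conj_ofReal]
      ring
    have e2 : conj (-I * (x + t * I : ℂ) - t0) = -I * (-x + t * I : ℂ) - t0 := by
      rw [← e1, Complex.conj_conj]
    rw [e1, e2, norm_mul, norm_mul, Complex.norm_conj, Complex.norm_conj, mul_comm]

/-- strict growth on a ray -/
theorem Sy.strict (h : Sy Φ) {t h0 : ℝ} (h0n : 0 ≤ h0)
    (hZ : ∀ b : ℂ, Φ b = 0 → h0 < |b.re| → |b.re| ≤ |t - b.im|) :
    StrictMonoOn (fun x : ℝ => ‖Φ (x + t * I : ℂ)‖) (Set.Ici h0) := by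
  classical
  obtain ⟨p, hp1, hp2, hp3⟩ := h.approx
  have hg : ∀ h1 h2 : ℝ, h0 ≤ h1 → h1 ≤ h2 → ‖Φ (h1 + t * I : ℂ)‖ ≤ ‖Φ (h2 + t * I : ℂ)‖ := by
    intro h1 h2 h01 h12
    have h3 : ∀ N, ‖(p N).eval (h1 + t * I : ℂ)‖ ≤ ‖(p N).eval (h2 + t * I : ℂ)‖ := by
      intro N
      have h4 := Pool.Agent.Y22.LM.poly_ineq (p := p N) (t := t) (fun x => hp3 N x t) h0n h01 h12 ∅ (fun _ => 0)
        (fun b hb h5 h6 => by
          exfalso
          rcases hp1 N b (Polynomial.isRoot_of_mem_roots hb) with h7 | h7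
          · have := hZ b h7 h6
            linarith
          · rw [h7, abs_zero] at h6
            linarith) (fun b hb => by simp at hb) (fun b hb => by simp at hb)
      simpa using h4
    have h5 := le_of_tendsto_of_tendsto' (hp2 _).norm (hp2 _).norm h3
    rw [norm_pow, norm_pow] at h5
    exact (pow_le_pow_iff_left₀ (norm_nonneg _) (norm_nonneg _) two_ne_zero).1 h5
  have hne : ∀ x : ℝ, h0 < x → Φ (x + t * I : ℂ) ≠ 0 := by
    intro x hx h1
    have h2 := hZ _ h1 (by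
      simp only [add_re, ofReal_re, mul_re, I_re, mul_zero, ofReal_im, I_im, mul_one, sub_self, add_zero]
      exact lt_of_lt_of_le hx (le_abs_self _))
    simp only [add_re, ofReal_re, mul_re, I_re, mul_zero, ofReal_im, I_im, mul_one, sub_self, add_zero,
      add_im, mul_im, zero_add, abs_zero] at h2
    have h3 := abs_pos.mpr (ne_of_gt (lt_of_le_of_lt h0n hx))
    linarith
  intro h1 hh1 h2 hh2 h12
  rw [Set.mem_Ici] at hh1 hh2
  show ‖Φ (h1 + t * I : ℂ)‖ < ‖Φ (h2 + t * I : ℂ)‖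
  by_contra hcon
  push Not at hcon
  have hconst : ∀ x ∈ Set.Ioo h1 h2, ‖Φ (x + t * I : ℂ)‖ = ‖Φ (h1 + t * I : ℂ)‖ := by
    intro x hh
    have a1 := hg h1 x hh1 hh.1.le
    have a2 := hg x h2 (hh1.trans hh.1.le) hh.2.le
    linarith
  obtain ⟨G, hG⟩ : ∃ G : ℂ → ℂ, G = fun z => Φ (z + t * I) * Φ (-z + t * I) - ((‖Φ (h1 + t * I : ℂ)‖ : ℂ)) ^ 2 := ⟨_, rfl⟩
  have hGd : Differentiable ℂ G := by
    rw [hG]
    have e1 : Differentiable ℂ (fun z : ℂ => Φ (z + t * I)) := h.diff.comp (by fun_prop)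
    have e2 : Differentiable ℂ (fun z : ℂ => Φ (-z + t * I)) := h.diff.comp (by fun_prop)
    exact (e1.mul e2).sub_const _
  have hG0 : ∀ x ∈ Set.Ioo h1 h2, G x = 0 := by
    intro x hh
    rw [hG]
    simp only
    have e1 : (-x + t * I : ℂ) = -((starRingEnd ℂ) (x + t * I : ℂ)) := by
      rw [map_add, map_mul, Complex.conj_ofReal, Complex.conj_ofReal, Complex.conj_I]; ring
    rw [e1, h.symm, Complex.mul_conj, Complex.normSq_eq_norm_sq, hconst x hh]
    push_cast
    ring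
  have hGz : G = 0 := by
    have hm : (((h1 + h2) / 2 : ℝ) : ℂ) ∈ (Set.univ : Set ℂ) := Set.mem_univ _
    have hfreq : ∃ᶠ z in 𝓝[≠] (((h1 + h2) / 2 : ℝ) : ℂ), G z = 0 := by
      have hmap : Tendsto (fun x : ℝ => (x : ℂ)) (𝓝[≠] ((h1 + h2) / 2)) (𝓝[≠] (((h1 + h2) / 2 : ℝ) : ℂ)) := by
        refine tendsto_nhdsWithin_iff.mpr ⟨(Complex.continuous_ofReal.tendsto _).mono_left nhdsWithin_le_nhds, ?_⟩
        filter_upwards [self_mem_nhdsWithin] with x hx
        rw [Set.mem_compl_singleton_iff] at hx ⊢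
        exact fun h0 => hx (by exact_mod_cast h0)
      refine hmap.frequently (Eventually.frequently ?_)
      have : ∀ᶠ x : ℝ in 𝓝 ((h1 + h2) / 2), x ∈ Set.Ioo h1 h2 := isOpen_Ioo.mem_nhds ⟨by linarith, by linarith⟩
      filter_upwards [this.filter_mono nhdsWithin_le_nhds] with x hx
      exact hG0 x hx
    have h3 := AnalyticOnNhd.eqOn_zero_of_preconnected_of_frequently_eq_zero (f := G) (U := Set.univ)
      (fun z _ => hGd.analyticAt z) isPreconnected_univ hm hfreq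
    funext z
    exact h3 (Set.mem_univ z)
  obtain ⟨z0, hz0⟩ := h.ex
  have h4 := congrFun hGz (z0 - t * I)
  rw [hG] at h4
  simp only [Pi.zero_apply, sub_add_cancel, hz0, zero_mul, zero_sub, neg_eq_zero] at h4
  have h5 : ‖Φ (h1 + t * I : ℂ)‖ = 0 := by
    have := pow_eq_zero_iff (two_ne_zero) |>.mp h4
    exact_mod_cast this
  have hmid := hconst ((h1 + h2) / 2) ⟨by linarith, by linarith⟩
  have h6 := hne ((h1 + h2) / 2) (by linarith)
  rw [h5] at hmid
  exact h6 (norm_eq_zero.mp hmid)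

theorem Sy.bad_cover (h : Sy Φ) {h0 T : ℝ} (h0n : 0 ≤ h0) {t : ℝ} (ht : t ∈ Bad Φ h0 T) :
    (∃ b ∈ S Φ h0 (T + 1 / 2), t ∈ Set.Icc (b.im - |b.re|) (b.im + |b.re|)) ∨ (h0 < 1 / 2 ∧ t ∈ Set.Icc 0 (1 / 2)) := by
  obtain ⟨ht0, htT, hbad⟩ := ht
  by_contra hcon
  apply hbad
  push Not at hcon
  obtain ⟨hcon1, hcon2⟩ := hcon
  refine h.strict h0n fun b hb hb0 => ?_
  by_contra hlt
  push Not at hlt
  have hDb := h.strip b hb
  have hlt2 := abs_lt.1 hlt
  rcases le_or_gt b.im 0 with him | him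
  · exact hcon2 (by linarith) ⟨ht0, by linarith⟩
  · exact hcon1 b ⟨hb, hb0.le, him, by linarith⟩ ⟨by linarith, by linarith⟩

theorem Sy.bad_meas (h : Sy Φ) {c C : ℝ} (hc : 0 < c) (hc1 : c < 1) (hC : 0 < C)
    (hcount : ∀ δ T : ℝ, 0 ≤ δ → 2 ≤ T → (S Φ δ T).Finite ∧
      ((S Φ δ T).ncard : ℝ) ≤ C * T ^ (1 - c * δ) * Real.log T) :
    ∃ C' : ℝ, 0 < C' ∧ ∀ r T : ℝ, 0 ≤ r → 2 ≤ T →
      volume (Bad Φ (r / Real.log T) T) ≤ ENNReal.ofReal (C' * (1 + r) * Real.exp (-(c * r)) * T) := by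
  classical
  obtain ⟨D', hDe⟩ : ∃ D' : ℝ, D' = 1 := ⟨_, rfl⟩
  have hD1 : 1 ≤ D' := hDe.ge
  have hl2 : 0 < Real.log 2 := Real.log_pos (by norm_num)
  have hlD : 0 ≤ Real.log (1 + D') := Real.log_nonneg (by linarith)
  obtain ⟨E, hE⟩ : ∃ E : ℝ, E = 1 + Real.log (1 + D') / Real.log 2 := ⟨_, rfl⟩
  have hE1 : 1 ≤ E := by
    rw [hE]
    have : 0 ≤ Real.log (1 + D') / Real.log 2 := by positivity
    linarith
  refine ⟨2 * C * (1 + D') * E * (1 + 1 / c) + 1, by positivity, fun r T hr hT => ?_⟩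
  have hT0 : 0 < T := by linarith
  set L := Real.log T with hL
  have hL2 : Real.log 2 ≤ L := Real.log_le_log (by norm_num) hT
  have hL0 : 0 < L := lt_of_lt_of_le hl2 hL2
  set h0 := r / L with hh0
  have h0n : 0 ≤ h0 := by positivity
  set T' := (1 + D') * T with hT'
  have hT'2 : 2 ≤ T' := by rw [hT']; nlinarith
  have hT'0 : 0 < T' := by linarith
  have hTD : T + 1 / 2 ≤ T' := by rw [hT']; nlinarith
  have hTT' : T ≤ T' := by linarith
  have hlogT' : Real.log T' = Real.log (1 + D') + L := by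
    rw [hT', Real.log_mul (by linarith) hT0.ne']
  have hlogT'1 : Real.log T' ≤ E * L := by
    rw [hlogT', hE]
    have h1 : Real.log (1 + D') ≤ Real.log (1 + D') / Real.log 2 * L := by
      rw [div_mul_eq_mul_div, le_div_iff₀ hl2]
      exact mul_le_mul_of_nonneg_left hL2 hlD
    linarith
  have hlogT'2 : L ≤ Real.log T' := by rw [hlogT']; linarith
  have hfin := (hcount h0 T' h0n hT'2).1
  set Z := hfin.toFinset with hZ
  have hmem : ∀ b, b ∈ Z ↔ b ∈ S Φ h0 T' := fun b => by rw [hZ, Set.Finite.mem_toFinset]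
  -- counting
  have hcnt : ∀ u : ℝ, h0 ≤ u → ((Z.filter (fun b => u ≤ |b.re|)).card : ℝ) ≤
      (C * (1 + D') * E * T * L) * Real.exp (-((c * L) * u)) := by
    intro u hu
    have hu0 : 0 ≤ u := h0n.trans hu
    obtain ⟨hf1, hf2⟩ := hcount u T' hu0 hT'2
    have h1 : (Z.filter (fun b => u ≤ |b.re|)).card ≤ (S Φ u T').ncard := by
      rw [← Set.ncard_coe_finset]
      refine Set.ncard_le_ncard ?_ hf1
      intro b hb
      rw [Finset.mem_coe, Finset.mem_filter, hmem] at hb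
      exact ⟨hb.1.1, hb.2, hb.1.2.2.1, hb.1.2.2.2⟩
    have h2 : (((Z.filter (fun b => u ≤ |b.re|)).card : ℕ) : ℝ) ≤ ((S Φ u T').ncard : ℝ) := by exact_mod_cast h1
    refine h2.trans (hf2.trans ?_)
    have h3 : T' ^ (1 - c * u) = T' * Real.exp (-(c * u * Real.log T')) := by
      rw [Real.rpow_def_of_pos hT'0]
      have : Real.log T' * (1 - c * u) = Real.log T' + -(c * u * Real.log T') := by ring
      rw [this, Real.exp_add, Real.exp_log hT'0]
    have h4 : Real.exp (-(c * u * Real.log T')) ≤ Real.exp (-((c * L) * u)) := by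
      apply Real.exp_le_exp.mpr
      have := mul_le_mul_of_nonneg_left hlogT'2 (mul_nonneg hc.le hu0)
      linarith
    have hlogn : 0 ≤ Real.log T' := hL0.le.trans hlogT'2
    calc C * T' ^ (1 - c * u) * Real.log T'
        = C * (T' * Real.exp (-(c * u * Real.log T'))) * Real.log T' := by rw [h3]
      _ ≤ C * (T' * Real.exp (-((c * L) * u))) * (E * L) := by
          gcongr
      _ = (C * (1 + D') * E * T * L) * Real.exp (-((c * L) * u)) := by rw [hT']; ring
  have hsum := sum_le Z (fun b => |b.re|) (h0 := h0) (A := C * (1 + D') * E * T * L) (a := c * L)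
    (by positivity) h0n (by positivity) (fun b hb => ((hmem b).mp hb).2.1) hcnt
  -- cover
  have hsub : Bad Φ h0 T ⊆ (⋃ b ∈ Z, Set.Icc (b.im - |b.re|) (b.im + |b.re|)) ∪
      (if h0 < 1 / 2 then Set.Icc 0 (1 / 2) else ∅) := by
    intro t ht
    rcases h.bad_cover h0n ht with ⟨b, hb, htb⟩ | ⟨h1, h2⟩
    · left
      refine Set.mem_biUnion (x := b) ?_ htb
      rw [Finset.mem_coe, hmem]
      exact ⟨hb.1, hb.2.1, hb.2.2.1, hb.2.2.2.trans hTD⟩
    · right
      rw [if_pos h1]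
      exact h2
  have h5 : ∑ b ∈ Z, volume (Set.Icc (b.im - |b.re|) (b.im + |b.re|)) = ENNReal.ofReal (2 * ∑ b ∈ Z, |b.re|) := by
    rw [Finset.mul_sum, ENNReal.ofReal_sum_of_nonneg (fun b _ => by positivity)]
    refine Finset.sum_congr rfl fun b _ => ?_
    rw [Real.volume_Icc]
    congr 1
    ring
  have h6 : (c * L) * h0 = c * r := by
    rw [hh0]; field_simp
  rw [h6] at hsum
  have h7 : (C * (1 + D') * E * T * L) * Real.exp (-(c * r)) * (h0 + 1 / (c * L)) =
      C * (1 + D') * E * T * Real.exp (-(c * r)) * (r + 1 / c) := by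
    rw [hh0]; field_simp
  rw [h7] at hsum
  have h8 : r + 1 / c ≤ (1 + 1 / c) * (1 + r) := by
    have : 0 ≤ 1 / c := by positivity
    nlinarith
  have h9 : C * (1 + D') * E * T * Real.exp (-(c * r)) * (r + 1 / c) ≤
      C * (1 + D') * E * T * Real.exp (-(c * r)) * ((1 + 1 / c) * (1 + r)) :=
    mul_le_mul_of_nonneg_left h8 (by positivity)
  have h10 : 2 * ∑ b ∈ Z, |b.re| ≤ 2 * C * (1 + D') * E * (1 + 1 / c) * (1 + r) * Real.exp (-(c * r)) * T := by
    calc 2 * ∑ b ∈ Z, |b.re| ≤ 2 * (C * (1 + D') * E * T * Real.exp (-(c * r)) * ((1 + 1 / c) * (1 + r))) := by linarith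
      _ = _ := by ring
  have h11 : volume (if h0 < 1 / 2 then Set.Icc (0 : ℝ) (1 / 2) else ∅) ≤
      ENNReal.ofReal ((1 + r) * Real.exp (-(c * r)) * T) := by
    split_ifs with hlt
    · rw [Real.volume_Icc]
      apply ENNReal.ofReal_le_ofReal
      have h12 : r < L / 2 := by
        rw [hh0, div_lt_iff₀ hL0] at hlt
        linarith
      have h13 : c * r ≤ L := by nlinarith
      have h14 : Real.exp (-L) ≤ Real.exp (-(c * r)) := Real.exp_le_exp.2 (by linarith)
      have h15 : Real.exp (-L) * T = 1 := by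
        rw [hL, Real.exp_neg, Real.exp_log hT0, inv_mul_cancel₀ hT0.ne']
      have h16 : 1 ≤ Real.exp (-(c * r)) * T := by
        rw [← h15]
        exact mul_le_mul_of_nonneg_right h14 hT0.le
      have h17 : 0 ≤ r * (Real.exp (-(c * r)) * T) := by positivity
      nlinarith
    · simp
  calc volume (Bad Φ h0 T) ≤ _ := measure_mono hsub
    _ ≤ volume (⋃ b ∈ Z, Set.Icc (b.im - |b.re|) (b.im + |b.re|)) +
        volume (if h0 < 1 / 2 then Set.Icc (0 : ℝ) (1 / 2) else ∅) := measure_union_le _ _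
    _ ≤ ENNReal.ofReal (2 * C * (1 + D') * E * (1 + 1 / c) * (1 + r) * Real.exp (-(c * r)) * T) +
        ENNReal.ofReal ((1 + r) * Real.exp (-(c * r)) * T) := by
        refine add_le_add ?_ h11
        refine (measure_biUnion_finset_le Z _).trans ?_
        rw [h5]
        exact ENNReal.ofReal_le_ofReal h10
    _ = _ := by
        rw [← ENNReal.ofReal_add (by positivity) (by positivity)]
        congr 1
        ring

/-- the final form -/
theorem Sy.bad_all (h : Sy Φ)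
    (hcount : ∀ c : ℝ, c < 1 → ∃ C : ℝ, 0 < C ∧ ∀ δ T : ℝ, 0 ≤ δ → 2 ≤ T → (S Φ δ T).Finite ∧
      ((S Φ δ T).ncard : ℝ) ≤ C * T ^ (1 - c * δ) * Real.log T) {c : ℝ} (hc : c < 1) :
    ∃ C' : ℝ, 0 < C' ∧ ∀ r T : ℝ, 0 ≤ r → 2 ≤ T →
      volume (Bad Φ (r / Real.log T) T) ≤ ENNReal.ofReal (C' * Real.exp (-(c * r)) * T) := by
  obtain ⟨c1, hc1, hcc1, hc11⟩ : ∃ c1 : ℝ, 0 < c1 ∧ c < c1 ∧ c1 < 1 := by
    refine ⟨max ((c + 1) / 2) (1 / 2), ?_, ?_, ?_⟩
    · exact lt_of_lt_of_le (by norm_num) (le_max_right _ _)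
    · exact lt_of_lt_of_le (by linarith) (le_max_left _ _)
    · exact max_lt (by linarith) (by norm_num)
  obtain ⟨C, hC, h1⟩ := hcount c1 hc11
  obtain ⟨C1, hC1, h2⟩ := h.bad_meas hc1 hc11 hC h1
  have hd : 0 < c1 - c := by linarith
  refine ⟨C1 * max 1 (1 / (c1 - c)), by positivity, fun r T hr hT => (h2 r T hr hT).trans ?_⟩
  refine ENNReal.ofReal_le_ofReal ?_
  have h3 : 1 + r ≤ max 1 (1 / (c1 - c)) * Real.exp ((c1 - c) * r) := by
    have h4 : 1 + (c1 - c) * r ≤ Real.exp ((c1 - c) * r) := by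
      have := Real.add_one_le_exp ((c1 - c) * r)
      linarith
    have h5 : 1 + r ≤ max 1 (1 / (c1 - c)) * (1 + (c1 - c) * r) := by
      have h6 : 1 ≤ max 1 (1 / (c1 - c)) := le_max_left _ _
      have h7 : 1 ≤ max 1 (1 / (c1 - c)) * (c1 - c) := by
        have := mul_le_mul_of_nonneg_right (le_max_right 1 (1 / (c1 - c))) hd.le
        rwa [one_div_mul_cancel hd.ne'] at this
      nlinarith [mul_le_mul_of_nonneg_right h7 hr]
    exact h5.trans (mul_le_mul_of_nonneg_left h4 (by positivity))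
  have h8 : Real.exp ((c1 - c) * r) * Real.exp (-(c1 * r)) = Real.exp (-(c * r)) := by
    rw [← Real.exp_add]
    congr 1
    ring
  have hT0 : 0 < T := by linarith
  calc C1 * (1 + r) * Real.exp (-(c1 * r)) * T
      ≤ C1 * (max 1 (1 / (c1 - c)) * Real.exp ((c1 - c) * r)) * Real.exp (-(c1 * r)) * T := by gcongr
    _ = C1 * max 1 (1 / (c1 - c)) * (Real.exp ((c1 - c) * r) * Real.exp (-(c1 * r))) * T := by ring
    _ = C1 * max 1 (1 / (c1 - c)) * Real.exp (-(c * r)) * T := by rw [h8]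

end Pool.Agent.Q9.RH
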