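import Pool.Agent.Q9.RH.Grow
import Pool.Agent.Y423.GL.TotD

/-!
# Growth along horizontal rays of completed L-functions
-/

set_option autoImplicit false

namespace Pool.Agent.Q9.RH

open MeasureTheory Set Filter Complex Topology
open scoped ComplexConjugate
open Pool.Agent.Y22.RX (S Bad)
open Pool.Agent.Y671.GL

/-- completed L-functions are in the class -/
theorem sy_of_cg {κ : ℝ} {H X Z : ℂ → ℂ} (hκ : 1 / 2 ≤ κ) (h : CG κ H X Z)
    (hst : ∀ s : ℂ, X s = 0 → |s.re| ≤ 1 / 2) : Sy X := by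
  have hne : ∃ z, X z ≠ 0 := by
    refine ⟨1, fun h0 => ?_⟩
    have := hst 1 h0
    norm_num at this
  have happ : AppX X := Pool.Agent.Y275.GL.had1 X h.cf.diff h.cf.symm hne h.slow hst
  refine ⟨h.cf.diff, h.cf.symm, h.slow, hst, ?_⟩
  obtain ⟨c, T0, hc, hT0, h1⟩ := Pool.Agent.Y423.GL.totd κ H X Z hκ h happ 1 le_rfl
  obtain ⟨S, hS, hS2⟩ := h1 0 T0 le_rfl (by
    have : 0 ≤ Real.log T0 := Real.log_nonneg (by linarith)
    simpa using this)
  have hpos : 0 < c * T0 * Real.log T0 := by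
    have : 0 < Real.log T0 := Real.log_pos (by linarith)
    positivity
  have hne : S.Nonempty := by
    by_contra h0
    rw [Finset.not_nonempty_iff_eq_empty] at h0
    rw [h0, Finset.sum_empty] at hS2
    linarith
  obtain ⟨s, hs⟩ := hne
  have := (hS s hs).1
  rw [iteratedDeriv_zero] at this
  exact ⟨s, this⟩

/-- the heights at which `x ↦ |Λ(1 + x + i t)|` is not strictly increasing on `x ≥ h` -/
def BadL (Λ : ℂ → ℂ) (h T : ℝ) : Set ℝ :=
  {t : ℝ | 0 ≤ t ∧ t ≤ T ∧ ¬ StrictMonoOn (fun x : ℝ => ‖Λ (1 + x + t * I)‖) (Set.Ici h)}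

theorem badL_eq {Λ X : ℂ → ℂ} {v : ℂ} (hv : v ≠ 0) (hX : ∀ z : ℂ, X z = v * Λ (1 + z)) (h T : ℝ) :
    BadL Λ h T = Bad X h T := by
  have hv0 : 0 < ‖v‖ := norm_pos_iff.2 hv
  have e : ∀ t x : ℝ, ‖X (x + t * I : ℂ)‖ = ‖v‖ * ‖Λ (1 + x + t * I)‖ := by
    intro t x
    rw [hX, norm_mul, add_assoc]
  have key : ∀ t : ℝ, StrictMonoOn (fun x : ℝ => ‖X (x + t * I : ℂ)‖) (Set.Ici h) ↔
      StrictMonoOn (fun x : ℝ => ‖Λ (1 + x + t * I)‖) (Set.Ici h) := by
    intro t
    constructor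
    · intro hm a ha b hb hab
      have h1 := hm ha hb hab
      simp only [e] at h1
      exact lt_of_mul_lt_mul_left h1 hv0.le
    · intro hm a ha b hb hab
      have h1 := hm ha hb hab
      simp only [e]
      exact mul_lt_mul_of_pos_left h1 hv0
  unfold BadL Bad
  simp only [key]

/-- the Riemann hypothesis and the growth -/
theorem rh_iff_growth {Λ X : ℂ → ℂ} {v : ℂ} (hv : v ≠ 0) (hX : ∀ z : ℂ, X z = v * Λ (1 + z)) (hs : Sy X) :
    (∀ s : ℂ, Λ s = 0 → s.re = 1) ↔
      ∀ t : ℝ, StrictMonoOn (fun x : ℝ => ‖Λ (1 + x + t * I)‖) (Set.Ici 0) := by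
  have hv0 : 0 < ‖v‖ := norm_pos_iff.2 hv
  have hz : ∀ z : ℂ, X z = 0 ↔ Λ (1 + z) = 0 := by
    intro z
    rw [hX, mul_eq_zero]
    simp [hv]
  constructor
  · intro h t
    have h1 := hs.strict (t := t) (h0 := 0) le_rfl fun b hb hb0 => by
      exfalso
      have := h _ ((hz b).1 hb)
      simp at this
      rw [this, abs_zero] at hb0
      exact lt_irrefl _ hb0
    intro a ha b hb hab
    have h2 := h1 ha hb hab
    simp only [hX, norm_mul] at h2
    have h3 := lt_of_mul_lt_mul_left h2 hv0.le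
    simpa only [add_assoc] using h3
  · intro h s hs0
    have key : ∀ b : ℂ, X b = 0 → b.re ≤ 0 := by
      intro b hb
      by_contra hcon
      push Not at hcon
      have h1 := h b.im (Set.mem_Ici.2 le_rfl) (Set.mem_Ici.2 hcon.le) hcon
      have e1 : (1 : ℂ) + (b.re : ℂ) + b.im * I = 1 + b := by
        rw [add_assoc, Complex.re_add_im]
      simp only [e1, (hz b).1 hb, norm_zero] at h1
      exact absurd h1 (not_lt.2 (norm_nonneg _))
    have e0 : (1 : ℂ) + (s - 1) = s := by ring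
    have h1 : X (s - 1) = 0 := by rw [hz, e0, hs0]
    have h2 := key _ h1
    have h3 : X (-(conj (s - 1))) = 0 := by rw [hs.symm, h1, map_zero]
    have h4 := key _ h3
    simp at h2 h4
    linarith

end Pool.Agent.Q9.RH
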