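import Pool.Agent.Q9.RH.Ec
import Pool.Agent.Y771.NF.FinH

/-!
# The heat flow of the completed L-function of an elliptic curve
-/

set_option autoImplicit false

namespace Pool.Agent.Q9.RH

open UpperHalfPlane hiding I
open MatrixGroups CongruenceSubgroup Filter Topology Complex MeasureTheory
open scoped ComplexConjugate
open Pool.Agent.W169.HF (IsForm IsCompleted coef heat)
open Pool.Agent.Y771.NF

variable {N : ℕ} [NeZero N] {f : CuspForm (Gamma0 N : Subgroup (GL (Fin 2) ℝ)) 2} {w : ℝ}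

/-- zeros of the heat flow in a dyadic window -/
def ZerH (L : ℂ → ℂ) (t T : ℝ) : Set ℂ := {s | heat t L s = 0 ∧ T < s.im ∧ s.im ≤ 2 * T}

def ExcH (L : ℂ → ℂ) (t T : ℝ) : Set ℂ := {s | s ∈ ZerH L t T ∧ (s.re ≠ 1 ∨ deriv (heat t L) s = 0)}

theorem flow (hf : IsForm N f w) {L : ℂ → ℂ} (hL : IsCompleted f L) :
    heat 0 L = L ∧ (∀ t T : ℝ, 0 ≤ t → (ZerH L t T).Finite) ∧
      ∃ c C : ℝ, 0 < c ∧ 0 < C ∧ ∀ t T : ℝ, 0 < t → t ≤ 1 / 8 → 2 ≤ T →
        ((∑ᶠ s ∈ ExcH L t T, analyticOrderNatAt (heat t L) s : ℕ) : ℝ) ≤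
          C * Real.exp (-(c * t * Real.log T ^ 2)) * ((∑ᶠ s ∈ ZerH L t T, analyticOrderNatAt (heat t L) s : ℕ) : ℝ) ∧
        ((∑ᶠ s ∈ ExcH L t T, analyticOrderNatAt (heat t L) s : ℕ) : ℝ) ≤
          C * Real.exp (-(c * t * Real.log T ^ 2)) * T * Real.log T := by
  have hnf := Pool.Agent.Y671.GL.newf_of_form hf
  -- entire heat flow
  obtain ⟨u, H, Z, hu, hGG, hst, hA, -, -⟩ := Pool.Agent.Y671.GL.ec_data hf hL
  obtain ⟨K0, hK0, hslow⟩ := hGG.cg.slow
  have hne : ∃ z, (fun z => u * L (1 + z)) z ≠ 0 := by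
    refine ⟨1, fun h0 => ?_⟩
    have := hst 1 h0
    norm_num at this
  obtain ⟨g0, gd, -⟩ := Pool.Agent.Y275.GL.hht (fun z => u * L (1 + z))
    (Pool.Agent.Y671.GL.slow_of hGG.cg.cf.diff hK0 hslow) hGG.cg.cf.symm hne hst
  have htr : ∀ (t : ℝ) (z : ℂ), heat t (fun z => u * L (1 + z)) z = u * heat t L (1 + z) := by
    intro t z
    have h := integral_const_mul (μ := volume) u (fun v : ℝ => ((Real.exp (-v ^ 2) : ℝ) : ℂ) *
      L (1 + z + ((2 * Real.sqrt t * v : ℝ) : ℂ)))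
    unfold heat
    rw [mul_left_comm, ← h]
    congr 1
    refine integral_congr_ae (Eventually.of_forall fun v => ?_)
    simp only
    rw [← add_assoc]
    ring
  have h0 : heat 0 L = L := by
    funext s
    have h1 := congrFun g0 (s - 1)
    rw [htr] at h1
    have e1 : (1 : ℂ) + (s - 1) = s := by ring
    rw [e1] at h1
    exact mul_left_cancel₀ hu h1
  have hdiff : ∀ t : ℝ, 0 ≤ t → Differentiable ℂ (heat t L) := by
    intro t ht
    have h1 := gd t ht
    have h2 : (heat t L) = fun s => u⁻¹ * heat t (fun z => u * L (1 + z)) (s - 1) := by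
      funext s
      rw [htr]
      have e1 : (1 : ℂ) + (s - 1) = s := by ring
      rw [e1, inv_mul_cancel_left₀ hu]
    rw [h2]
    exact (h1.comp (by fun_prop)).const_mul _
  obtain ⟨h1, c, C, hc, hC, h2⟩ := Pool.Agent.Y771.NF.flow (k := 2) (by norm_num) hnf
    (fun t z => heat t L (1 + I * z)) (fun t z => by
      rw [lam_eq hf hL]
      norm_num)
  have hZ : ∀ t T : ℝ, ∀ z : ℂ, z ∈ Cnt.ZerH (fun z => heat t L (1 + I * z)) T ↔ 1 + I * z ∈ ZerH L t T := by
    intro t T z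
    unfold Cnt.ZerH ZerH
    simp
  have hE : ∀ t T : ℝ, 0 ≤ t → ∀ z : ℂ, z ∈ Cnt.ExcH (fun z => heat t L (1 + I * z)) T ↔ 1 + I * z ∈ ExcH L t T := by
    intro t T ht z
    have hder : deriv (fun z => heat t L (1 + I * z)) z = deriv (heat t L) (1 + I * z) * I := by
      have h3 : HasDerivAt (fun z : ℂ => 1 + I * z) I z := by
        simpa using ((hasDerivAt_id z).const_mul I).const_add 1
      exact (((hdiff t ht) (1 + I * z)).hasDerivAt.comp z h3).deriv
    unfold Cnt.ExcH ExcH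
    rw [Set.mem_setOf_eq, Set.mem_setOf_eq, hZ]
    have h4 : (1 + I * z).re ≠ 1 ↔ z.im ≠ 0 := by simp
    have h5 : deriv (heat t L) (1 + I * z) = 0 ↔ deriv (fun z => heat t L (1 + I * z)) z = 0 := by
      rw [hder, mul_eq_zero]
      simp
    rw [h4, h5]
  refine ⟨h0, fun t T ht => ?_, c, C, hc, hC, fun t T ht ht8 hT => ?_⟩
  · exact (num_transfer (hdiff t ht) (fun z => rfl) (hZ t T)).1 (h1 t T ht)
  · obtain ⟨h3, h4⟩ := h2 t T ht ht8 hT
    have e1 := (num_transfer (hdiff t ht.le) (fun z => rfl) (hZ t T)).2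
    have e2 := (num_transfer (hdiff t ht.le) (fun z => rfl) (hE t T ht.le)).2
    rw [← e1, ← e2]
    exact ⟨h3, h4⟩

end Pool.Agent.Q9.RH
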