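import Pool.Agent.W355.EK.Main
import Pool.Agent.TH809.TP.HWm

set_option autoImplicit false

/-!
# `L(E/K, s)`: the criterion for the minors

As `Pool.Agent.W355.EK.Main`, with the criterion for the minors in place of that for Jensen polynomials.
-/

namespace Pool.Agent.Q9.RH.WEm

open Complex Filter Topology Set NumberField IsDedekindDomain
open scoped ComplexConjugate
open Pool.Agent.W355.LJ
open H385 (ZI RQ im1 chiZ FQs phiQ nrm)
open Pool.Agent.H304R3.HK (tc HC LH bH psi bb goodH uh_psi)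
open Pool.Agent.W164.RC
open Pool.Agent.W355.EK
open Pool.Agent.TH809.TP.GC (MCrit mcrit_of_scale mcrit_congr)

theorem scale_up {D : Pool.Agent.H471R3.GJ.Dat} {r : ℕ} {F : ℂ → ℂ} {c K : ℝ}
    (h : Pool.Agent.H471R3.GJ.Crit.Scale D r F c K) : Pool.Agent.W355.GJ.Crit.Scale D r F c K :=
  ⟨Pool.Agent.TH809.TP.GH.isL_up h.isL, h.hr, h.hc, h.hK, h.hX⟩

/-- The criterion for the product of a completed L-function and its dual. -/
theorem critJ {l : List Pc} {L : ℝ} {b : ℕ → ℂ} {w : ℂ} {Λ : ℂ → ℂ} (h : IsC l L b w Λ)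
    (hw : ‖w‖ = 1) (hl : l ≠ []) :
    (∀ z : ℂ, Λ (1 / 2 + -z) * st Λ (1 / 2 + -z) = Λ (1 / 2 + z) * st Λ (1 / 2 + z)) ∧
    MCrit 0 (fun z => Λ (1 / 2 + z) * st Λ (1 / 2 + z))
      (∀ s : ℂ, Λ s = 0 → s.re = 1 / 2) := by
  obtain ⟨D, hD, hD1, hD2⟩ := h.double hw hl
  have hr : rL D = 0 := by
    unfold rL
    rw [if_pos hD2]
  have h1 := mcrit_congr (rhL hD) (mcrit_of_scale (scale_up (scaleL hD)))
  rw [hr, hD1] at h1
  refine ⟨fun z => ?_, mcrit_congr (rh_double Λ) h1⟩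
  have h2 := parL hD z
  rw [hr, hD1, pow_zero, one_mul] at h2
  exact h2

section
variable (cd : (q : ZI) → MulChar (RQ q) ℂ → ZI)
    (pr : (q : ZI) → MulChar (RQ q) ℂ → (ZI →* ℂ))
    (hprim : ∀ q : ZI, q ≠ 0 → ∀ χ ∈ FQs q, cd q χ ∣ q ∧ HC (cd q χ) (pr q χ) ∧
      ∀ a : ZI, IsCoprime a q → pr q χ a = chiZ q χ a)

include hprim

theorem mainM {q : ZI} (hq : q ≠ 0) (h2 : two2 ∣ q) (K : Type) [Field K] [NumberField K]
    (ι : ZI →+* 𝓞 K) (art : (RQ q)ˣ →* (𝓞 K ≃+* 𝓞 K)) (H : IsRayClassField q K ι art)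
    {D : ℤ} (hD : D ≠ 0) (hd : ∃ d : 𝓞 K, d ^ 4 = (D : 𝓞 K))
    (a ε : HeightOneSpectrum (𝓞 K) → ℤ)
    (hpos : ∀ v ∈ exc q ι D, Poss (Ideal.absNorm v.asIdeal) (a v) (ε v)) :
    (exc q ι D).Finite ∧ ∃ (L Λ B : ℂ → ℂ) (A : ℝ), 0 < A ∧
      AnalyticOnNhd ℂ L {s : ℂ | 1 / 2 < s.re} ∧
      (∀ s : ℂ, 3 / 2 < s.re → HasProd (fac q ι D a ε s) (L s)) ∧
      Differentiable ℂ Λ ∧ (∀ s : ℂ, Λ (2 - s) = Λ s) ∧ (∀ s : ℂ, Λ (conj s) = conj (Λ s)) ∧
      EulerQuot B ∧ AnalyticOnNhd ℂ B {s : ℂ | 1 / 2 < s.re} ∧ (∀ s : ℂ, 1 / 2 < s.re → B s ≠ 0) ∧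
      (∀ s : ℂ, 1 / 2 < s.re → Λ s = (A : ℂ) ^ (s / 2) *
        ((2 * (Real.pi : ℂ)) ^ (-s) * Complex.Gamma s) ^ (2 * Nat.card art.range) *
          (B s * L s)) ∧
      MCrit 0 (fun z => Λ (1 + z)) (∀ s : ℂ, 1 / 2 < s.re → L s = 0 → s.re = 1) := by
  classical
  have hιinj := iota_inj ι
  have h8 := eight_le_nrm hq h2
  have hcard : (FQs q).card = Nat.card art.range := by
    have c1 := H385.fq_card q (by omega)
    have c2 := ray_card hq h2 H
    have c3 : ((4 * Nat.card art.range : ℕ) : ℝ) = (phiQ q : ℝ) := by exact_mod_cast c2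
    push_cast at c3
    have c4 : ((FQs q).card : ℝ) = (Nat.card art.range : ℝ) := by
      rw [c1, ← c3]
      ring
    exact_mod_cast c4
  have hphi : 0 < phiQ q := (H385.fq_finite q hq).2.1
  have hne : (FQs q).Nonempty := by
    rw [← Finset.card_pos, hcard]
    have c2 := ray_card hq h2 H
    omega
  obtain ⟨w, Λ1, hg⟩ := good_Q cd pr hprim hq hne
  have hhalf : ∀ {s : ℂ}, -(1 / 2 : ℝ) < s.re → Λ1 s = GG cd q s * LQ pr q s :=
    fun hs => good_Q_half cd pr hprim hq hg hs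
  obtain ⟨l, M, b, hl, hw, hc, -⟩ := hg
  obtain ⟨hcr1, hcr2⟩ := critJ hc hw hl
  obtain ⟨hfin, R, hRq, hR, hprod⟩ := curve (F := fun s => FE pr q (s - 1 / 2) * FE pr (star q) (s - 1 / 2))
    hq h2 K ι D hιinj (fun s hs => hasProd_K cd pr hprim hq h2 H hs) hD hd a ε hpos
  have hq' : star q ≠ 0 := fun h => hq (by rw [← star_star q, h, star_zero])
  have hA0 := A0_pos cd pr hprim hq
  set m : ℕ := Nat.card art.range with hm
  set L : ℂ → ℂ := fun s => FE pr q (s - 1 / 2) * FE pr (star q) (s - 1 / 2) * R s with hL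
  set Λ : ℂ → ℂ := fun s => Λ1 (s - 1 / 2) * st Λ1 (s - 1 / 2) with hΛ
  set B : ℂ → ℂ := fun s => ((A0 cd q : ℝ) : ℂ) ^ (-(1 / 2) : ℂ) * 2 ^ (2 * m) *
    (CQ pr q (s - 1 / 2) * st (CQ pr q) (s - 1 / 2) * R s)⁻¹ with hB
  have hre : ∀ s : ℂ, (s - 1 / 2).re = s.re - 1 / 2 := fun s => by simp
  have hden : ∀ s : ℂ, 1 / 2 < s.re →
      CQ pr q (s - 1 / 2) * st (CQ pr q) (s - 1 / 2) * R s ≠ 0 := by
    intro s hs
    have h0 : 0 < (s - 1 / 2).re := by rw [hre]; linarith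
    refine mul_ne_zero (mul_ne_zero (CQ_ne cd pr hprim hq h0) ?_) (hR s hs).2
    unfold st
    rw [map_ne_zero]
    refine CQ_ne cd pr hprim hq ?_
    rwa [Complex.conj_re]
  have hAc : ((A0 cd q : ℝ) : ℂ) ≠ 0 := by exact_mod_cast hA0.ne'
  have hkey : ∀ s : ℂ, 1 / 2 < s.re → Λ s = (((A0 cd q) ^ 2 : ℝ) : ℂ) ^ (s / 2) *
        ((2 * (Real.pi : ℂ)) ^ (-s) * Complex.Gamma s) ^ (2 * m) * (B s * L s) := by
    intro s hs
    have h0 : 0 < (s - 1 / 2).re := by rw [hre]; linarith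
    have h1 : -(1 / 2 : ℝ) < (s - 1 / 2).re := by linarith
    have h1' : -(1 / 2 : ℝ) < (conj (s - 1 / 2)).re := by rw [Complex.conj_re]; linarith
    have e1 := hhalf h1
    have e2 : st Λ1 (s - 1 / 2) = GG cd q (s - 1 / 2) * st (LQ pr q) (s - 1 / 2) := by
      unfold st
      rw [hhalf h1', map_mul, GG_conj cd pr hprim hq, Complex.conj_conj]
    have e3 : FE pr (star q) (s - 1 / 2) = st (LQ pr q) (s - 1 / 2) * st (CQ pr q) (s - 1 / 2) := by
      rw [FE_star cd pr hprim hq h2 H, FE_eq_mul, map_mul]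
      rfl
    have e4 : GG cd q (s - 1 / 2) * GG cd q (s - 1 / 2) = (((A0 cd q) ^ 2 : ℝ) : ℂ) ^ (s / 2) *
        ((2 * (Real.pi : ℂ)) ^ (-s) * Complex.Gamma s) ^ (2 * m) *
        (((A0 cd q : ℝ) : ℂ) ^ (-(1 / 2) : ℂ) * 2 ^ (2 * m)) := by
      rw [GG_eq cd pr hprim hq, hcard]
      have e5 : (s - 1 / 2 + 1 / 2 : ℂ) = s := by ring
      rw [e5, Complex.Gammaℂ_def]
      have e6 : (((A0 cd q) ^ 2 : ℝ) : ℂ) ^ (s / 2) = ((A0 cd q : ℝ) : ℂ) ^ (s / 2) *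
          ((A0 cd q : ℝ) : ℂ) ^ (s / 2) := by
        rw [sq, Complex.ofReal_mul, Complex.mul_cpow_ofReal_nonneg hA0.le hA0.le]
      have e7 : ((A0 cd q : ℝ) : ℂ) ^ ((s - 1 / 2) / 2) * ((A0 cd q : ℝ) : ℂ) ^ ((s - 1 / 2) / 2) =
          ((A0 cd q : ℝ) : ℂ) ^ (s / 2) * ((A0 cd q : ℝ) : ℂ) ^ (s / 2) *
            ((A0 cd q : ℝ) : ℂ) ^ (-(1 / 2) : ℂ) := by
        rw [← Complex.cpow_add _ _ hAc, ← Complex.cpow_add _ _ hAc, ← Complex.cpow_add _ _ hAc]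
        congr 1
        ring
      calc _ = (((A0 cd q : ℝ) : ℂ) ^ ((s - 1 / 2) / 2) * ((A0 cd q : ℝ) : ℂ) ^ ((s - 1 / 2) / 2)) *
            ((2 * (Real.pi : ℂ)) ^ (-s) * Complex.Gamma s) ^ (2 * m) * 2 ^ (2 * m) := by ring
        _ = _ := by rw [e7, e6]; ring
    show Λ1 (s - 1 / 2) * st Λ1 (s - 1 / 2) = _
    have e8 : B s * L s = (((A0 cd q : ℝ) : ℂ) ^ (-(1 / 2) : ℂ) * 2 ^ (2 * m)) *
        (LQ pr q (s - 1 / 2) * st (LQ pr q) (s - 1 / 2)) := by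
      show ((A0 cd q : ℝ) : ℂ) ^ (-(1 / 2) : ℂ) * 2 ^ (2 * m) *
        (CQ pr q (s - 1 / 2) * st (CQ pr q) (s - 1 / 2) * R s)⁻¹ *
        (FE pr q (s - 1 / 2) * FE pr (star q) (s - 1 / 2) * R s) = _
      rw [e3, FE_eq_mul]
      have h9 := hden s hs
      have : LQ pr q (s - 1 / 2) * CQ pr q (s - 1 / 2) * (st (LQ pr q) (s - 1 / 2) *
          st (CQ pr q) (s - 1 / 2)) * R s = (CQ pr q (s - 1 / 2) * st (CQ pr q) (s - 1 / 2) * R s) *
          (LQ pr q (s - 1 / 2) * st (LQ pr q) (s - 1 / 2)) := by ring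
      rw [this, mul_assoc _ (_)⁻¹, ← mul_assoc (_)⁻¹, inv_mul_cancel₀ h9, one_mul]
    rw [e8, e1, e2]
    calc _ = (GG cd q (s - 1 / 2) * GG cd q (s - 1 / 2)) *
        (LQ pr q (s - 1 / 2) * st (LQ pr q) (s - 1 / 2)) := by ring
      _ = _ := by rw [e4]; ring
  have hLan : AnalyticOnNhd ℂ L {s : ℂ | 1 / 2 < s.re} := by
    intro s hs
    have hd1 := FE_diff cd pr hprim hq
    have hd2 := FE_diff cd pr hprim hq'
    have h1 : Differentiable ℂ fun s : ℂ => FE pr q (s - 1 / 2) * FE pr (star q) (s - 1 / 2) :=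
      (hd1.comp (by fun_prop)).mul (hd2.comp (by fun_prop))
    exact (h1.analyticAt s).mul (hR s hs).1
  have hBan : AnalyticOnNhd ℂ B {s : ℂ | 1 / 2 < s.re} := by
    intro s hs
    have hd1 := CQ_diff pr q
    have h1 : Differentiable ℂ fun s : ℂ => CQ pr q (s - 1 / 2) * st (CQ pr q) (s - 1 / 2) :=
      (hd1.comp (by fun_prop)).mul ((st_diff hd1).comp (by fun_prop))
    exact analyticAt_const.mul (((h1.analyticAt s).mul (hR s hs).1).inv (hden s hs))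
  have hBq : EulerQuot B := by
    have hCQ : EulerQuot (CQ pr q) := EulerQuot.prod _ _ fun χ _ => cq_quot q _
    have hc : ((A0 cd q : ℝ) : ℂ) ^ (-(1 / 2) : ℂ) * 2 ^ (2 * m) ≠ 0 := by
      refine mul_ne_zero ?_ (pow_ne_zero _ two_ne_zero)
      rw [Complex.cpow_ne_zero_iff]
      exact Or.inl hAc
    refine EulerQuot.mul (EulerQuot.const _ hc) (EulerQuot.inv (EulerQuot.mul
      (EulerQuot.mul ?_ ?_) hRq))
    · refine (hCQ.shift (1 / 2)).congr fun s => ?_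
      push_cast
      rfl
    · refine (hCQ.star.shift (1 / 2)).congr fun s => ?_
      push_cast
      rfl
  have hBne : ∀ s : ℂ, 1 / 2 < s.re → B s ≠ 0 := by
    intro s hs
    refine mul_ne_zero (mul_ne_zero ?_ (pow_ne_zero _ two_ne_zero)) (inv_ne_zero (hden s hs))
    rw [Complex.cpow_ne_zero_iff]
    exact Or.inl hAc
  have hfe : ∀ s : ℂ, Λ (2 - s) = Λ s := by
    intro s
    have h1 := hcr1 (s - 1)
    show Λ1 (2 - s - 1 / 2) * st Λ1 (2 - s - 1 / 2) = Λ1 (s - 1 / 2) * st Λ1 (s - 1 / 2)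
    have e1 : (2 - s - 1 / 2 : ℂ) = 1 / 2 + -(s - 1) := by ring
    have e2 : (s - 1 / 2 : ℂ) = 1 / 2 + (s - 1) := by ring
    rw [e1, e2]
    exact h1
  have hzero : ∀ s : ℂ, 1 / 2 < s.re → (Λ s = 0 ↔ L s = 0) := by
    intro s hs
    rw [hkey s hs]
    have hs0 : 0 < s.re := by linarith
    have h1 : (((A0 cd q) ^ 2 : ℝ) : ℂ) ^ (s / 2) ≠ 0 := by
      rw [Complex.cpow_ne_zero_iff]
      left
      exact_mod_cast (pow_pos hA0 2).ne'
    have h3 : ((2 * (Real.pi : ℂ)) ^ (-s) * Complex.Gamma s) ^ (2 * m) ≠ 0 := by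
      refine pow_ne_zero _ (mul_ne_zero ?_ (Complex.Gamma_ne_zero_of_re_pos hs0))
      rw [Complex.cpow_ne_zero_iff]
      left
      exact mul_ne_zero two_ne_zero (by exact_mod_cast Real.pi_ne_zero)
    constructor
    · intro h
      rcases mul_eq_zero.1 h with h4 | h4
      · rcases mul_eq_zero.1 h4 with h5 | h5
        · exact absurd h5 h1
        · exact absurd h5 h3
      · exact (mul_eq_zero.1 h4).resolve_left (hBne s hs)
    · intro h
      rw [h, mul_zero, mul_zero]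
  have hrh : (∀ s : ℂ, Λ1 s = 0 → s.re = 1 / 2) ↔
      (∀ s : ℂ, 1 / 2 < s.re → L s = 0 → s.re = 1) := by
    constructor
    · intro h s hs hs0
      rcases mul_eq_zero.1 ((hzero s hs).2 hs0) with h1 | h1
      · have := h _ h1
        rw [hre] at this
        linarith
      · unfold st at h1
        have := h _ ((map_eq_zero _).1 h1)
        rw [Complex.conj_re, hre] at this
        linarith
    · intro h u hu
      have h1 : Λ (u + 1 / 2) = 0 := by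
        show Λ1 (u + 1 / 2 - 1 / 2) * _ = 0
        rw [add_sub_cancel_right, hu, zero_mul]
      have e0 : (u + 1 / 2).re = u.re + 1 / 2 := by simp
      by_cases hcase : 1 / 2 < (u + 1 / 2).re
      · have := h _ hcase ((hzero _ hcase).1 h1)
        rw [e0] at this
        linarith
      · exfalso
        have e3 : (2 - (u + 1 / 2)).re = 2 - (u.re + 1 / 2) := by simp
        rw [e0] at hcase
        have h3 : Λ (2 - (u + 1 / 2)) = 0 := by rw [hfe, h1]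
        have h4 : 1 / 2 < (2 - (u + 1 / 2)).re := by rw [e3]; linarith
        have := h _ h4 ((hzero _ h4).1 h3)
        rw [e3] at this
        linarith
  have hFeq : (fun z => Λ (1 + z)) = fun z => Λ1 (1 / 2 + z) * st Λ1 (1 / 2 + z) := by
    funext z
    show Λ1 (1 + z - 1 / 2) * st Λ1 (1 + z - 1 / 2) = _
    have : (1 + z - 1 / 2 : ℂ) = 1 / 2 + z := by ring
    rw [this]
  refine ⟨hfin, L, Λ, B, (A0 cd q) ^ 2, pow_pos hA0 2, hLan, hprod, ?_, hfe, ?_, hBq, hBan, hBne, hkey,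
    ?_⟩
  · exact (hc.entire.comp (by fun_prop)).mul ((st_diff hc.entire).comp (by fun_prop))
  · intro s
    show Λ1 (conj s - 1 / 2) * st Λ1 (conj s - 1 / 2) =
      conj (Λ1 (s - 1 / 2) * st Λ1 (s - 1 / 2))
    have e : conj s - 1 / 2 = conj (s - 1 / 2) := by
      rw [map_sub, map_div₀, map_one, map_ofNat]
    unfold st
    rw [e, Complex.conj_conj, map_mul, Complex.conj_conj, mul_comm]
  · rw [hFeq]
    exact mcrit_congr hrh hcr2

end

end Pool.Agent.Q9.RH.WEm
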